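import Mathlib

/-! Elementary inequalities for the 20-norm on a finite index type. -/

namespace Pool.Agent.P.MP_6da505_nt

open Finset

instance fact20 : Fact ((1 : ENNReal) ≤ 20) := ⟨by norm_num⟩

abbrev V (κ : Type) := PiLp 20 (fun _ : κ => ℝ)

variable {κ : Type} [Fintype κ]

theorem norm_pow20 (x : V κ) : ‖x‖ ^ 20 = ∑ i, x i ^ 20 := by
  have h20 : (20 : ENNReal).toReal = 20 := by norm_num
  rw [PiLp.norm_eq_sum (by rw [h20]; norm_num), h20]
  have h1 : ∀ i, ‖x i‖ ^ (20 : ℝ) = x i ^ 20 := by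
    intro i
    rw [show (20 : ℝ) = ((20 : ℕ) : ℝ) by norm_num, Real.rpow_natCast, Real.norm_eq_abs]
    exact Even.pow_abs (by decide) _
  simp only [h1]
  have h0 : 0 ≤ ∑ i, x i ^ 20 := sum_nonneg fun i _ => by positivity
  rw [← Real.rpow_natCast, ← Real.rpow_mul h0]
  norm_num

theorem norm_le_of_sum_le (x : V κ) {c : ℝ} (hc : 0 ≤ c) (h : ∑ i, x i ^ 20 ≤ c ^ 20) :
    ‖x‖ ≤ c := by
  rw [← norm_pow20] at h
  exact le_of_pow_le_pow_left₀ (by norm_num) hc h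

theorem abs_le_norm (x : V κ) (i : κ) : |x i| ≤ ‖x‖ := by
  have := PiLp.norm_apply_le x i
  rwa [Real.norm_eq_abs] at this

/-- the linear functional attached to `x`. -/
def ell (x y : V κ) : ℝ := ∑ i, x i ^ 19 * y i

theorem ell_add (x y z : V κ) : ell x (y + z) = ell x y + ell x z := by
  simp [ell, mul_add, sum_add_distrib]

theorem ell_neg (x y : V κ) : ell x (-y) = - ell x y := by
  simp [ell]

theorem ell_sum {β : Type} (x : V κ) (s : Finset β) (y : β → V κ) :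
    ell x (∑ b ∈ s, y b) = ∑ b ∈ s, ell x (y b) := by
  classical
  induction s using Finset.induction_on with
  | empty => simp [ell]
  | insert a s ha ih => rw [sum_insert ha, sum_insert ha, ell_add, ih]

theorem taylor (x y : ℝ) (n : ℕ) :
    |(x + y) ^ (n + 2) - x ^ (n + 2) - (n + 2) * x ^ (n + 1) * y|
      ≤ (n + 2) ^ 2 * y ^ 2 * (|x| + |y|) ^ n := by
  induction n with
  | zero =>
    have : (x + y) ^ (0 + 2) - x ^ (0 + 2) - ((0 : ℕ) + 2) * x ^ (0 + 1) * y = y ^ 2 := by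
      push_cast; ring
    rw [this, abs_of_nonneg (sq_nonneg y)]
    push_cast
    nlinarith [sq_nonneg y]
  | succ n ih =>
    have e : (x + y) ^ (n + 1 + 2) - x ^ (n + 1 + 2) - ((n + 1 : ℕ) + 2) * x ^ (n + 1 + 1) * y
        = (x + y) * ((x + y) ^ (n + 2) - x ^ (n + 2) - (n + 2) * x ^ (n + 1) * y)
          + (n + 2) * x ^ (n + 1) * y ^ 2 := by
      push_cast; ring
    rw [e]
    have hs : |x + y| ≤ |x| + |y| := abs_add_le x y
    have hx : |x| ^ (n + 1) ≤ (|x| + |y|) ^ (n + 1) :=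
      pow_le_pow_left₀ (abs_nonneg x) (by linarith [abs_nonneg y]) _
    have h0 : 0 ≤ |x| + |y| := by positivity
    calc _ ≤ |(x + y) * ((x + y) ^ (n + 2) - x ^ (n + 2) - (n + 2) * x ^ (n + 1) * y)|
            + |(n + 2) * x ^ (n + 1) * y ^ 2| := abs_add_le _ _
      _ ≤ (|x| + |y|) * ((n + 2) ^ 2 * y ^ 2 * (|x| + |y|) ^ n)
            + (n + 2) * (|x| + |y|) ^ (n + 1) * y ^ 2 := by
          apply add_le_add
          · rw [abs_mul]
            exact mul_le_mul hs ih (abs_nonneg _) h0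
          · rw [abs_mul, abs_mul, abs_pow, abs_of_nonneg (sq_nonneg y),
              abs_of_nonneg (by positivity : (0 : ℝ) ≤ n + 2)]
            gcongr
      _ = ((n + 2) ^ 2 + (n + 2)) * (y ^ 2 * (|x| + |y|) ^ (n + 1)) := by ring
      _ ≤ (((n + 1 : ℕ) : ℝ) + 2) ^ 2 * (y ^ 2 * (|x| + |y|) ^ (n + 1)) := by
          apply mul_le_mul_of_nonneg_right _ (by positivity)
          push_cast
          have : (0 : ℝ) ≤ n := Nat.cast_nonneg n
          nlinarith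
      _ = _ := by ring

theorem young18 (x y θ : ℝ) (h0 : 0 < θ) (h1 : θ ≤ 1) :
    y ^ 2 * (|x| + |y|) ^ 18 ≤ 2 ^ 18 * (θ ^ 2 * x ^ 20 + y ^ 20 / θ ^ 18) := by
  have hx : x ^ 20 = |x| ^ 20 := (Even.pow_abs (by decide) _).symm
  have hy : y ^ 20 = |y| ^ 20 := (Even.pow_abs (by decide) _).symm
  have hy2 : y ^ 2 = |y| ^ 2 := (sq_abs y).symm
  rw [hx, hy, hy2]
  have ha := abs_nonneg x
  have hb := abs_nonneg y
  set a := |x|
  set b := |y|
  by_cases h : b ≤ θ * a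
  · have hba : b ≤ a := h.trans (by nlinarith)
    calc b ^ 2 * (a + b) ^ 18 ≤ (θ * a) ^ 2 * (2 * a) ^ 18 := by gcongr; linarith
      _ = 2 ^ 18 * (θ ^ 2 * a ^ 20) := by ring
      _ ≤ _ := by
        have : 0 ≤ b ^ 20 / θ ^ 18 := by positivity
        nlinarith
  · have h' : a ≤ b / θ := by rw [le_div_iff₀ h0]; linarith
    have h'' : b ≤ b / θ := by rw [le_div_iff₀ h0]; nlinarith
    calc b ^ 2 * (a + b) ^ 18 ≤ b ^ 2 * (2 * (b / θ)) ^ 18 := by gcongr; linarith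
      _ = 2 ^ 18 * (b ^ 20 / θ ^ 18) := by field_simp
      _ ≤ _ := by
        have : 0 ≤ θ ^ 2 * a ^ 20 := by positivity
        nlinarith

/-- the smoothness constant. -/
def Cs : ℝ := 400 * 2 ^ 19

theorem Cs_pos : 0 < Cs := by unfold Cs; positivity

theorem smooth (x y : V κ) {M θ : ℝ} (h0 : 0 < θ) (h1 : θ ≤ 1)
    (hx : ‖x‖ ≤ M) (hy : ‖y‖ ≤ θ * M) :
    ‖x + y‖ ^ 20 ≤ ‖x‖ ^ 20 + 20 * ell x y + Cs * θ ^ 2 * M ^ 20 := by
  have hX : ∑ i, x i ^ 20 ≤ M ^ 20 := by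
    rw [← norm_pow20]; exact pow_le_pow_left₀ (norm_nonneg _) hx _
  have hY : ∑ i, y i ^ 20 ≤ (θ * M) ^ 20 := by
    rw [← norm_pow20]; exact pow_le_pow_left₀ (norm_nonneg _) hy _
  have key : ∀ i, (x + y) i ^ 20 ≤ x i ^ 20 + 20 * (x i ^ 19 * y i)
      + 400 * 2 ^ 18 * (θ ^ 2 * x i ^ 20 + y i ^ 20 / θ ^ 18) := by
    intro i
    have h := (le_abs_self _).trans (taylor (x i) (y i) 18)
    have h2 := young18 (x i) (y i) θ h0 h1
    simp only [PiLp.add_apply]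
    push_cast at h
    norm_num at h ⊢
    nlinarith
  rw [norm_pow20, norm_pow20]
  calc ∑ i, (x + y) i ^ 20 ≤ ∑ i, (x i ^ 20 + 20 * (x i ^ 19 * y i)
      + 400 * 2 ^ 18 * (θ ^ 2 * x i ^ 20 + y i ^ 20 / θ ^ 18)) := sum_le_sum fun i _ => key i
    _ = ∑ i, x i ^ 20 + 20 * ell x y
      + 400 * 2 ^ 18 * (θ ^ 2 * ∑ i, x i ^ 20 + (∑ i, y i ^ 20) / θ ^ 18) := by
        simp only [ell, sum_add_distrib, ← mul_sum, sum_div]
    _ ≤ ∑ i, x i ^ 20 + 20 * ell x y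
      + 400 * 2 ^ 18 * (θ ^ 2 * M ^ 20 + (θ * M) ^ 20 / θ ^ 18) := by gcongr
    _ = _ := by unfold Cs; field_simp; ring

theorem ell_le (x z : V κ) {M σ : ℝ} (h0 : 0 < σ) (hx : ‖x‖ ≤ M) (hz : ‖z‖ ≤ σ * M) :
    ell x z ≤ 2 * σ * M ^ 20 := by
  have hX : ∑ i, x i ^ 20 ≤ M ^ 20 := by
    rw [← norm_pow20]; exact pow_le_pow_left₀ (norm_nonneg _) hx _
  have hZ : ∑ i, z i ^ 20 ≤ (σ * M) ^ 20 := by
    rw [← norm_pow20]; exact pow_le_pow_left₀ (norm_nonneg _) hz _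
  have key : ∀ i, x i ^ 19 * z i ≤ σ * x i ^ 20 + z i ^ 20 / σ ^ 19 := by
    intro i
    have hx : x i ^ 20 = |x i| ^ 20 := (Even.pow_abs (by decide) _).symm
    have hy : z i ^ 20 = |z i| ^ 20 := (Even.pow_abs (by decide) _).symm
    have h1 : x i ^ 19 * z i ≤ |x i| ^ 19 * |z i| := by
      rw [← abs_pow, ← abs_mul]; exact le_abs_self _
    rw [hx, hy]
    have ha := abs_nonneg (x i)
    have hb := abs_nonneg (z i)
    set a := |x i|
    set b := |z i|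
    by_cases h : b ≤ σ * a
    · have : a ^ 19 * b ≤ a ^ 19 * (σ * a) := by gcongr
      have h2 : 0 ≤ b ^ 20 / σ ^ 19 := by positivity
      nlinarith
    · have h' : a ≤ b / σ := by rw [le_div_iff₀ h0]; linarith
      have h3 : a ^ 19 * b ≤ (b / σ) ^ 19 * b := by gcongr
      have h4 : (b / σ) ^ 19 * b = b ^ 20 / σ ^ 19 := by field_simp
      have h2 : 0 ≤ σ * a ^ 20 := by positivity
      linarith
  calc ell x z ≤ ∑ i, (σ * x i ^ 20 + z i ^ 20 / σ ^ 19) := sum_le_sum fun i _ => key i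
    _ = σ * ∑ i, x i ^ 20 + (∑ i, z i ^ 20) / σ ^ 19 := by
        simp only [sum_add_distrib, ← mul_sum, sum_div]
    _ ≤ σ * M ^ 20 + (σ * M) ^ 20 / σ ^ 19 := by gcongr
    _ = _ := by field_simp; ring

end Pool.Agent.P.MP_6da505_nt
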