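import Mathlib
import Pool.Agent.P.MP_6da505_nt.Smooth

/-! Boxes of residue classes modulo `q i ^ 2`, discrepancies and the weighted discrepancy vector. -/

namespace Pool.Agent.P.MP_6da505_nt

open Finset Function

noncomputable section

variable {ι : Type} [Fintype ι] [DecidableEq ι] (q : ι → ℕ) [∀ i, NeZero (q i)]

abbrev Cl (i : ι) := ZMod (q i ^ 2)
abbrev PA := ∀ i, Option (Cl q i)
abbrev St := ∀ i, Finset (Cl q i)

variable {q}

def box (U : St q) (Q : PA q) : St q := fun i => (Q i).elim (U i) (fun y => {y})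

def pts (N : ℕ) (T : St q) : Finset ℕ := (range N).filter fun b => ∀ i, (b : Cl q i) ∈ T i

def dens (T : St q) : ℝ := ∏ i, (#(T i) : ℝ) / (q i : ℝ) ^ 2

def dev (N : ℕ) (T : St q) : ℝ := (#(pts N T) : ℝ) / (N * dens T) - 1

def ee (Q : PA q) : ℕ := ∏ i, (Q i).elim 1 (fun _ => q i)

def gam (q : ι → ℕ) (i : ι) : ℝ := √(√(q i : ℝ))

def gamQ (Q : PA q) : ℝ := √(√(ee Q : ℝ))

def supp (Z : ℝ) (Q : PA q) : Prop := ∀ i, Q i ≠ none → (q i : ℝ) ≤ Z

def tracked (Z E : ℝ) (Q : PA q) : Prop := supp Z Q ∧ (ee Q : ℝ) ≤ E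

instance (Z E : ℝ) (Q : PA q) : Decidable (tracked Z E Q) := Classical.dec _

def vecL (Z E : ℝ) (F : PA q → ℝ) : V (PA q) :=
  WithLp.toLp 20 fun Q => if tracked Z E Q then F Q / gamQ Q else 0

def shL (Z E : ℝ) (F : PA q → ℝ) (i : ι) (y : Cl q i) : V (PA q) :=
  WithLp.toLp 20 fun Q =>
    if tracked Z E Q ∧ Q i = none then F (update Q i (some y)) / gamQ Q else 0

omit [Fintype ι] [DecidableEq ι] in
theorem one_le_q (i : ι) : (1 : ℝ) ≤ q i := by
  exact_mod_cast Nat.one_le_iff_ne_zero.mpr (NeZero.ne (q i))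

omit [DecidableEq ι] in
theorem one_le_ee (Q : PA q) : 1 ≤ ee Q := by
  unfold ee
  apply one_le_prod'
  intro i _
  cases Q i with
  | none => simp
  | some y => exact Nat.one_le_iff_ne_zero.mpr (NeZero.ne (q i))

omit [∀ i, NeZero (q i)] in
theorem ee_update (Q : PA q) (i : ι) (y : Cl q i) (h : Q i = none) :
    ee (update Q i (some y)) = ee Q * q i := by
  unfold ee
  rw [← mul_prod_erase univ _ (mem_univ i), ← mul_prod_erase univ _ (mem_univ i), h]
  simp only [update_self, Option.elim_some, Option.elim_none, one_mul]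
  rw [mul_comm]
  congr 1
  apply prod_congr rfl
  intro j hj
  rw [update_of_ne (ne_of_mem_erase hj)]

omit [Fintype ι] [DecidableEq ι] in
theorem one_le_gam (i : ι) : 1 ≤ gam q i := by
  unfold gam
  rw [Real.one_le_sqrt, Real.one_le_sqrt]
  exact one_le_q i

omit [DecidableEq ι] in
theorem one_le_gamQ (Q : PA q) : 1 ≤ gamQ Q := by
  unfold gamQ
  rw [Real.one_le_sqrt, Real.one_le_sqrt]
  exact_mod_cast one_le_ee Q

theorem sqrt_sqrt_pow4 {x : ℝ} (hx : 0 ≤ x) : √(√x) ^ 4 = x := by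
  rw [show 4 = 2 * 2 from rfl, pow_mul, Real.sq_sqrt (Real.sqrt_nonneg _), Real.sq_sqrt hx]

omit [DecidableEq ι] [∀ i, NeZero (q i)] in
theorem gamQ_pow20 (Q : PA q) : gamQ Q ^ 20 = (ee Q : ℝ) ^ 5 := by
  unfold gamQ
  rw [show 20 = 4 * 5 from rfl, pow_mul, sqrt_sqrt_pow4 (Nat.cast_nonneg _)]

omit [∀ i, NeZero (q i)] in
theorem gamQ_update (Q : PA q) (i : ι) (y : Cl q i) (h : Q i = none) :
    gamQ (update Q i (some y)) = gamQ Q * gam q i := by
  unfold gamQ gam
  rw [ee_update Q i y h, Nat.cast_mul, Real.sqrt_mul (Nat.cast_nonneg _),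
    Real.sqrt_mul (Real.sqrt_nonneg _)]

theorem sum_inv_ee (hsum : ∑ i, 1 / (q i : ℝ) ^ 2 ≤ 1) :
    ∑ Q : PA q, 1 / (ee Q : ℝ) ^ 4 ≤ 3 := by
  have h1 : ∀ Q : PA q, 1 / (ee Q : ℝ) ^ 4
      = ∏ i, (Q i).elim (1 : ℝ) (fun _ => 1 / (q i : ℝ) ^ 4) := by
    intro Q
    unfold ee
    rw [Nat.cast_prod, ← prod_pow, one_div, ← prod_inv_distrib]
    apply prod_congr rfl
    intro i _
    cases Q i <;> simp
  simp only [h1]
  have h2 := Finset.prod_univ_sum (fun i => (univ : Finset (Option (Cl q i))))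
    (fun i (o : Option (Cl q i)) => o.elim (1 : ℝ) (fun _ => 1 / (q i : ℝ) ^ 4))
  rw [Fintype.piFinset_univ] at h2
  rw [← h2]
  have h3 : ∀ i, ∑ o : Option (Cl q i), o.elim (1 : ℝ) (fun _ => 1 / (q i : ℝ) ^ 4)
      = 1 + 1 / (q i : ℝ) ^ 2 := by
    intro i
    rw [Fintype.sum_option]
    simp only [Option.elim_none, Option.elim_some, sum_const, card_univ, ZMod.card, nsmul_eq_mul]
    have := one_le_q (q := q) i
    push_cast
    field_simp
  simp only [h3]
  calc ∏ i, (1 + 1 / (q i : ℝ) ^ 2) ≤ ∏ i, Real.exp (1 / (q i : ℝ) ^ 2) := by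
        apply prod_le_prod (fun i _ => by positivity)
        intro i _
        linarith [Real.add_one_le_exp (1 / (q i : ℝ) ^ 2)]
    _ = Real.exp (∑ i, 1 / (q i : ℝ) ^ 2) := (Real.exp_sum _ _).symm
    _ ≤ Real.exp 1 := Real.exp_le_exp.mpr hsum
    _ ≤ 3 := by linarith [Real.exp_one_lt_d9]

/-- `F` is bounded by `Θ` on all partial assignments that can occur. -/
def Bdd (Z E Θ : ℝ) (F : PA q → ℝ) : Prop :=
  ∀ Q : PA q, supp Z Q → (ee Q : ℝ) ≤ E * Z → |F Q| ≤ Θ

omit [Fintype ι] [∀ i, NeZero (q i)] in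
theorem supp_update {Z : ℝ} {Q : PA q} (hQ : supp Z Q) {i : ι} (hi : (q i : ℝ) ≤ Z)
    (y : Cl q i) : supp Z (update Q i (some y)) := by
  intro j hj
  by_cases h : j = i
  · subst h; exact hi
  · rw [update_of_ne h] at hj; exact hQ j hj

theorem sh_norm (hsum : ∑ i, 1 / (q i : ℝ) ^ 2 ≤ 1) {Z E Θ τ : ℝ} (hE : 0 < E) (hΘ : 0 ≤ Θ)
    (hτ0 : 0 ≤ τ) (hτ : 3 * (Z / E) ≤ τ ^ 20) {F : PA q → ℝ} (hF : Bdd Z E Θ F)
    {i : ι} (hi : (q i : ℝ) ≤ Z) (y : Cl q i) :
    ‖shL Z E F i y‖ ≤ gam q i * ‖vecL Z E F‖ + Θ * τ := by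
  classical
  have hZ : 0 < Z := lt_of_lt_of_le (by linarith [one_le_q (q := q) i]) hi
  let s1 : V (PA q) := WithLp.toLp 20 fun Q =>
    if (tracked Z E Q ∧ Q i = none) ∧ (ee Q : ℝ) * q i ≤ E
      then F (update Q i (some y)) / gamQ Q else 0
  let s2 : V (PA q) := WithLp.toLp 20 fun Q =>
    if (tracked Z E Q ∧ Q i = none) ∧ ¬ (ee Q : ℝ) * q i ≤ E
      then F (update Q i (some y)) / gamQ Q else 0
  have hs : shL Z E F i y = s1 + s2 := by
    ext Q
    simp only [shL, s1, s2, PiLp.add_apply]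
    by_cases h1 : tracked Z E Q ∧ Q i = none <;> by_cases h2 : (ee Q : ℝ) * q i ≤ E <;>
      simp [h1, h2]
  have n1 : ‖s1‖ ≤ gam q i * ‖vecL Z E F‖ := by
    apply norm_le_of_sum_le _ (mul_nonneg (by linarith [one_le_gam (q := q) i]) (norm_nonneg _))
    rw [mul_pow, norm_pow20, mul_sum]
    let D := univ.filter fun Q : PA q => (tracked Z E Q ∧ Q i = none) ∧ (ee Q : ℝ) * q i ≤ E
    have e1 : ∑ Q, s1 Q ^ 20
        = ∑ Q ∈ D, gam q i ^ 20 * vecL Z E F (update Q i (some y)) ^ 20 := by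
      rw [sum_filter]
      apply sum_congr rfl
      intro Q _
      simp only [s1, vecL]
      by_cases h : (tracked Z E Q ∧ Q i = none) ∧ (ee Q : ℝ) * q i ≤ E
      · have ht : tracked Z E (update Q i (some y)) :=
          ⟨supp_update h.1.1.1 hi y, by rw [ee_update Q i y h.1.2]; push_cast; exact h.2⟩
        rw [if_pos h, if_pos h, if_pos ht, gamQ_update Q i y h.1.2, ← mul_pow]
        have := one_le_gam (q := q) i
        have := one_le_gamQ Q
        congr 1
        field_simp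
      · rw [if_neg h, if_neg h]; norm_num
    have hinj : Set.InjOn (fun Q : PA q => update Q i (some y)) D := by
      intro Q hQ Q' hQ' h
      have hQ := (mem_filter.mp hQ).2.1.2
      have hQ' := (mem_filter.mp hQ').2.1.2
      funext j
      by_cases hj : j = i
      · subst hj; rw [hQ, hQ']
      · have := congrFun h j
        simpa [update_of_ne hj] using this
    rw [e1, ← sum_image (f := fun Q => gam q i ^ 20 * vecL Z E F Q ^ 20) hinj]
    apply sum_le_sum_of_subset_of_nonneg (subset_univ _)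
    intro Q _ _
    positivity
  have n2 : ‖s2‖ ≤ Θ * τ := by
    apply norm_le_of_sum_le _ (mul_nonneg hΘ hτ0)
    have key : ∀ Q, s2 Q ^ 20 ≤ Θ ^ 20 * (Z / E) * (1 / (ee Q : ℝ) ^ 4) := by
      intro Q
      have he : (1 : ℝ) ≤ ee Q := by exact_mod_cast one_le_ee Q
      simp only [s2]
      by_cases h : (tracked Z E Q ∧ Q i = none) ∧ ¬ (ee Q : ℝ) * q i ≤ E
      · rw [if_pos h, div_pow, gamQ_pow20]
        have hb : |F (update Q i (some y))| ≤ Θ := by
          apply hF _ (supp_update h.1.1.1 hi y)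
          rw [ee_update Q i y h.1.2]; push_cast
          exact mul_le_mul h.1.1.2 hi (Nat.cast_nonneg _) hE.le
        have hb2 : F (update Q i (some y)) ^ 20 ≤ Θ ^ 20 := by
          rw [← Even.pow_abs (by decide : Even 20)]
          exact pow_le_pow_left₀ (abs_nonneg _) hb _
        have h3 : E ≤ ee Q * Z := by
          have := not_le.mp h.2
          nlinarith
        have h4 : 1 / (ee Q : ℝ) ≤ Z / E := by
          rw [div_le_div_iff₀ (by linarith) hE]; linarith
        calc _ ≤ Θ ^ 20 / (ee Q : ℝ) ^ 5 := by gcongr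
          _ = Θ ^ 20 * (1 / (ee Q : ℝ)) * (1 / (ee Q : ℝ) ^ 4) := by field_simp
          _ ≤ _ := by gcongr
      · rw [if_neg h]
        have : (0 : ℝ) ^ 20 = 0 := by norm_num
        rw [this]; positivity
    calc ∑ Q, s2 Q ^ 20 ≤ ∑ Q : PA q, Θ ^ 20 * (Z / E) * (1 / (ee Q : ℝ) ^ 4) :=
          sum_le_sum fun Q _ => key Q
      _ = Θ ^ 20 * (Z / E) * ∑ Q : PA q, (1 / (ee Q : ℝ) ^ 4) := by rw [mul_sum]
      _ ≤ Θ ^ 20 * (Z / E) * 3 := by gcongr; exact sum_inv_ee hsum
      _ = Θ ^ 20 * (3 * (Z / E)) := by ring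
      _ ≤ Θ ^ 20 * τ ^ 20 := by gcongr
      _ = _ := by rw [mul_pow]
  rw [hs]
  exact (norm_add_le _ _).trans (add_le_add n1 n2)

omit [∀ i, NeZero (q i)] [DecidableEq ι] in
theorem vecL_sub (Z E : ℝ) (F G : PA q → ℝ) : vecL Z E (F - G) = vecL Z E F - vecL Z E G := by
  ext Q
  simp only [vecL, PiLp.sub_apply, Pi.sub_apply]
  split_ifs <;> ring

omit [∀ i, NeZero (q i)] in
theorem shL_sub (Z E : ℝ) (F G : PA q → ℝ) (i : ι) (y : Cl q i) :
    shL Z E (F - G) i y = shL Z E F i y - shL Z E G i y := by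
  ext Q
  simp only [shL, PiLp.sub_apply, Pi.sub_apply]
  split_ifs <;> ring

omit [DecidableEq ι] [∀ i, NeZero (q i)] in
theorem Bdd.sub {Z E Θ : ℝ} {F G : PA q → ℝ} (hF : Bdd Z E Θ F) (hG : Bdd Z E Θ G) :
    Bdd Z E (2 * Θ) (F - G) := by
  intro Q h1 h2
  have := abs_sub (F Q) (G Q)
  have := hF Q h1 h2
  have := hG Q h1 h2
  simp only [Pi.sub_apply]
  linarith

omit [∀ i, NeZero (q i)] in
/-- averaging identity for discrepancies. -/
theorem dev_avg (N : ℕ) (T : St q) (i : ι) (W : Finset (Cl q i)) (hW : W.Nonempty) :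
    dev N (update T i W) = (1 / (#W : ℝ)) * ∑ y ∈ W, dev N (update T i {y}) := by
  have hd : ∀ W' : Finset (Cl q i), dens (update T i W')
      = (#W' : ℝ) / (q i : ℝ) ^ 2 * ∏ j ∈ univ.erase i, (#(T j) : ℝ) / (q j : ℝ) ^ 2 := by
    intro W'
    unfold dens
    rw [← mul_prod_erase univ _ (mem_univ i), update_self]
    congr 1
    apply prod_congr rfl
    intro j hj
    rw [update_of_ne (ne_of_mem_erase hj)]
  have hc : #(pts N (update T i W)) = ∑ y ∈ W, #(pts N (update T i {y})) := by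
    rw [card_eq_sum_card_fiberwise (f := fun b : ℕ => (b : Cl q i)) (t := W)]
    · apply sum_congr rfl
      intro y hy
      congr 1
      ext b
      simp only [pts, mem_filter]
      constructor
      · rintro ⟨⟨h1, h2⟩, h3⟩
        refine ⟨h1, fun j => ?_⟩
        by_cases hj : j = i
        · subst hj; simp [h3]
        · have := h2 j
          rw [update_of_ne hj] at this ⊢
          exact this
      · rintro ⟨h1, h2⟩
        have h3 : (b : Cl q i) = y := by simpa using h2 i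
        refine ⟨⟨h1, fun j => ?_⟩, h3⟩
        by_cases hj : j = i
        · subst hj; simp [h3, hy]
        · have := h2 j
          rw [update_of_ne hj] at this ⊢
          exact this
    · intro b hb
      have := (mem_filter.mp (mem_coe.mp hb)).2 i
      simpa using this
  have hw : (0 : ℝ) < #W := by exact_mod_cast hW.card_pos
  unfold dev
  simp only [hd, card_singleton, Nat.cast_one]
  rw [hc, sum_sub_distrib, ← sum_div]
  push_cast
  simp only [sum_const, nsmul_eq_mul, mul_one]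
  set P := ∏ j ∈ univ.erase i, (#(T j) : ℝ) / (q j : ℝ) ^ 2
  have : (N : ℝ) * ((#W : ℝ) / (q i : ℝ) ^ 2 * P) = #W * (N * (1 / (q i : ℝ) ^ 2 * P)) := by ring
  rw [this, mul_sub, one_div_mul_cancel hw.ne', ← div_div, div_right_comm]
  congr 1
  ring

end

end Pool.Agent.P.MP_6da505_nt
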