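import Mathlib
import Pool.Agent.P.MP_6da505_nt.Box

/-! Effect of shrinking the allowed sets on the discrepancy vector of one scale. -/

namespace Pool.Agent.P.MP_6da505_nt

open Finset Function

noncomputable section

set_option linter.unusedSectionVars false

variable {ι : Type} [Fintype ι] [DecidableEq ι] {q : ι → ℕ} [∀ i, NeZero (q i)]

structure Sc where
  N : ℕ
  Z : ℝ
  E : ℝ
  Θ : ℝ
  τ : ℝ

structure Sc.OK (s : Sc) : Prop where
  hE : 0 < s.E
  hΘ : 0 ≤ s.Θ
  hτ0 : 0 ≤ s.τ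
  hτ : 3 * (s.Z / s.E) ≤ s.τ ^ 20

def FU (N : ℕ) (U : St q) : PA q → ℝ := fun Q => dev N (box U Q)

def vec (s : Sc) (U : St q) : V (PA q) := vecL s.Z s.E (FU s.N U)

def avg {β W : Type} [AddCommGroup W] [Module ℝ W] (S : Finset β) (f : β → W) : W :=
  (1 / (#S : ℝ)) • ∑ y ∈ S, f y

theorem avg_norm_le {β W : Type} [NormedAddCommGroup W] [NormedSpace ℝ W] (S : Finset β)
    (f : β → W) {c : ℝ} (hc : 0 ≤ c) (h : ∀ y ∈ S, ‖f y‖ ≤ c) : ‖avg S f‖ ≤ c := by
  unfold avg
  rcases S.eq_empty_or_nonempty with rfl | hS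
  · simpa using hc
  have hw : (0 : ℝ) < #S := by exact_mod_cast hS.card_pos
  rw [norm_smul, Real.norm_eq_abs, abs_of_pos (by positivity)]
  have : ‖∑ y ∈ S, f y‖ ≤ #S * c := by
    refine (norm_sum_le _ _).trans ?_
    rw [← nsmul_eq_mul]
    exact sum_le_card_nsmul _ _ _ h
  calc 1 / (#S : ℝ) * ‖∑ y ∈ S, f y‖ ≤ 1 / (#S : ℝ) * (#S * c) := by gcongr
    _ = c := by field_simp

theorem box_update_none (U : St q) (Q : PA q) (i : ι) (W : Finset (Cl q i)) (h : Q i = none) :
    box (update U i W) Q = update (box U Q) i W := by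
  funext j
  by_cases hj : j = i
  · subst hj; simp [box, h]
  · simp [box, update_of_ne hj]

theorem box_update_some (U : St q) (Q : PA q) (i : ι) (W : Finset (Cl q i)) (h : Q i ≠ none) :
    box (update U i W) Q = box U Q := by
  funext j
  by_cases hj : j = i
  · subst hj
    obtain ⟨y, hy⟩ := Option.ne_none_iff_exists'.mp h
    simp [box, hy]
  · simp [box, update_of_ne hj]

theorem box_update_Q (U : St q) (Q : PA q) (i : ι) (y : Cl q i) :
    box U (update Q i (some y)) = update (box U Q) i {y} := by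
  funext j
  by_cases hj : j = i
  · subst hj; simp [box]
  · simp [box, update_of_ne hj]

theorem vec_update (s : Sc) (U : St q) (i : ι) (W : Finset (Cl q i)) (hW : W.Nonempty)
    (hU : (U i).Nonempty) :
    vec s (update U i W) - vec s U
      = avg W (shL s.Z s.E (FU s.N U) i) - avg (U i) (shL s.Z s.E (FU s.N U) i) := by
  ext Q
  simp only [vec, vecL, avg, shL, PiLp.sub_apply, PiLp.smul_apply, WithLp.ofLp_sum,
    Finset.sum_apply, smul_eq_mul]
  by_cases ht : tracked s.Z s.E Q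
  · by_cases hn : Q i = none
    · simp only [ht, hn, and_self, if_true, FU, box_update_Q]
      have e1 : box U Q = update (box U Q) i (U i) := by
        rw [← box_update_none U Q i (U i) hn, update_eq_self]
      rw [box_update_none U Q i W hn, dev_avg _ _ _ _ hW]
      conv_lhs => rw [e1, dev_avg _ _ _ _ hU]
      simp only [update_idem, ← sum_div]
      ring
    · simp [ht, hn, FU, box_update_some U Q i W hn]
  · simp [ht]

def Delta (s : Sc) (F : PA q → ℝ) (i : ι) (W Y : Finset (Cl q i)) : V (PA q) :=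
  (1 / ((#W : ℝ) - #Y)) • ∑ y ∈ Y, (avg W (shL s.Z s.E F i) - shL s.Z s.E F i y)

theorem vec_remove (s : Sc) (U : St q) (i : ι) (Y : Finset (Cl q i)) (hY : Y ⊆ U i)
    (hlt : #Y < #(U i)) :
    vec s (update U i (U i \ Y)) - vec s U = Delta s (FU s.N U) i (U i) Y := by
  have hcard : #(U i \ Y) = #(U i) - #Y := card_sdiff_of_subset hY
  have hW : (U i \ Y).Nonempty := by rw [← card_pos, hcard]; omega
  have hU : (U i).Nonempty := by rw [← card_pos]; omega
  rw [vec_update s U i _ hW hU]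
  unfold Delta avg
  rw [hcard, Nat.cast_sub hlt.le, sum_sub_distrib, sum_const, ← sum_sdiff hY]
  have h1 : (0 : ℝ) < #(U i) := by exact_mod_cast hU.card_pos
  have h2 : (0 : ℝ) < (#(U i) : ℝ) - #Y := by
    have : (#Y : ℝ) < #(U i) := by exact_mod_cast hlt
    linarith
  set A := ∑ y ∈ U i \ Y, shL s.Z s.E (FU s.N U) i y
  set B := ∑ y ∈ Y, shL s.Z s.E (FU s.N U) i y
  rw [← Nat.cast_smul_eq_nsmul ℝ]
  have e1 : 1 / ((#(U i) : ℝ) - #Y) - 1 / #(U i)
      = 1 / ((#(U i) : ℝ) - #Y) * (#Y * (1 / #(U i))) := by field_simp; ring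
  have e2 : - (1 / (#(U i) : ℝ))
      = 1 / ((#(U i) : ℝ) - #Y) * (#Y * (1 / #(U i)) - 1) := by field_simp; ring
  calc _ = (1 / ((#(U i) : ℝ) - #Y) - 1 / #(U i)) • A + (- (1 / (#(U i) : ℝ))) • B := by
        module
    _ = _ := by rw [e1, e2]; module

theorem Delta_sub (s : Sc) (F G : PA q → ℝ) (i : ι) (W Y : Finset (Cl q i)) :
    Delta s (F - G) i W Y = Delta s F i W Y - Delta s G i W Y := by
  unfold Delta avg
  simp only [shL_sub, sum_sub_distrib, smul_sub, sum_const]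
  module

theorem Delta_norm (hsum : ∑ i, 1 / (q i : ℝ) ^ 2 ≤ 1) {s : Sc} (hs : s.OK) {Θ : ℝ} (hΘ : 0 ≤ Θ)
    {F : PA q → ℝ} (hF : Bdd s.Z s.E Θ F) {i : ι} (hi : (q i : ℝ) ≤ s.Z)
    (W Y : Finset (Cl q i)) (hlt : #Y < #W) {c : ℝ}
    (hc : 2 * #Y * gam q i / ((#W : ℝ) - #Y) ≤ c) :
    ‖Delta s F i W Y‖ ≤ c * (‖vecL s.Z s.E F‖ + Θ * s.τ) := by
  have h2 : (0 : ℝ) < (#W : ℝ) - #Y := by
    have : (#Y : ℝ) < #W := by exact_mod_cast hlt
    linarith
  have hg := one_le_gam (q := q) i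
  have hτ := mul_nonneg hΘ hs.hτ0
  set X := ‖vecL s.Z s.E F‖ + Θ * s.τ with hX
  have hX0 : 0 ≤ X := add_nonneg (norm_nonneg _) hτ
  have hsh : ∀ y, ‖shL s.Z s.E F i y‖ ≤ gam q i * X := by
    intro y
    refine (sh_norm hsum hs.hE hΘ hs.hτ0 hs.hτ hF hi y).trans ?_
    rw [hX]; nlinarith
  have hav : ‖avg W (shL s.Z s.E F i)‖ ≤ gam q i * X :=
    avg_norm_le _ _ (by positivity) fun y _ => hsh y
  unfold Delta
  rw [norm_smul, Real.norm_eq_abs, abs_of_pos (by positivity)]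
  have : ‖∑ y ∈ Y, (avg W (shL s.Z s.E F i) - shL s.Z s.E F i y)‖ ≤ #Y * (2 * (gam q i * X)) := by
    refine (norm_sum_le _ _).trans ?_
    rw [← nsmul_eq_mul]
    apply sum_le_card_nsmul
    intro y _
    linarith [norm_sub_le (avg W (shL s.Z s.E F i)) (shL s.Z s.E F i y), hsh y]
  calc _ ≤ 1 / ((#W : ℝ) - #Y) * (#Y * (2 * (gam q i * X))) := by gcongr
    _ = 2 * #Y * gam q i / ((#W : ℝ) - #Y) * X := by ring
    _ ≤ c * X := by gcongr

def rem (U Y : St q) (G : Finset ι) : St q := fun i => if i ∈ G then U i \ Y i else U i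

theorem rem_insert (U Y : St q) {G : Finset ι} {i : ι} (hi : i ∉ G) :
    rem U Y (insert i G) = update (rem U Y G) i (rem U Y G i \ Y i) := by
  funext j
  by_cases hj : j = i
  · subst hj; simp [rem, hi]
  · simp [rem, hj]

theorem rem_subset (U Y : St q) {G G' : Finset ι} (h : G' ⊆ G) (i : ι) :
    rem U Y G i ⊆ rem U Y G' i := by
  unfold rem
  by_cases h1 : i ∈ G'
  · simp [h1, h h1]
  · by_cases h2 : i ∈ G <;> simp [h1, h2]

theorem remove_many (hsum : ∑ i, 1 / (q i : ℝ) ^ 2 ≤ 1) {s : Sc} (hs : s.OK) (U Y : St q)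
    (G : Finset ι) (c : ι → ℝ)
    (hB : ∀ U' : St q, (∀ i, rem U Y G i ⊆ U' i) → Bdd s.Z s.E s.Θ (FU s.N U'))
    (hc : ∀ i ∈ G, (q i : ℝ) ≤ s.Z ∧ Y i ⊆ U i ∧ #(Y i) < #(U i) ∧
      2 * #(Y i) * gam q i / ((#(U i) : ℝ) - #(Y i)) ≤ c i) :
    ∀ G' ⊆ G,
      ‖vec s (rem U Y G') - vec s U‖ + (‖vec s U‖ + s.Θ * s.τ)
        ≤ (‖vec s U‖ + s.Θ * s.τ) * Real.exp (∑ i ∈ G', c i) ∧
      ‖vec s (rem U Y G') - vec s U - ∑ i ∈ G', Delta s (FU s.N U) i (U i) (Y i)‖
        ≤ (∑ i ∈ G', c i) * ((‖vec s U‖ + s.Θ * s.τ) * (Real.exp (∑ i ∈ G', c i) - 1)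
          + 2 * (s.Θ * s.τ)) := by
  have hτ := mul_nonneg hs.hΘ hs.hτ0
  have hc0 : ∀ i ∈ G, 0 ≤ c i := by
    intro i hi
    obtain ⟨_, _, h3, h4⟩ := hc i hi
    refine le_trans ?_ h4
    have : (#(Y i) : ℝ) < #(U i) := by exact_mod_cast h3
    have := one_le_gam (q := q) i
    apply div_nonneg (by positivity) (by linarith)
  set X := ‖vec s U‖ + s.Θ * s.τ with hX
  have hX0 : 0 ≤ X := add_nonneg (norm_nonneg _) hτ
  have hU0 : rem U Y ∅ = U := by funext i; simp [rem]
  have hBU : Bdd s.Z s.E s.Θ (FU s.N U) := by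
    apply hB; intro i; rw [← hU0]; simpa [hU0] using rem_subset U Y (empty_subset G) i
  intro G'
  induction G' using Finset.induction_on with
  | empty => intro _; simp [hU0]
  | insert i G' hi ih =>
    intro hsub
    have hiG : i ∈ G := hsub (mem_insert_self _ _)
    have hG' : G' ⊆ G := (subset_insert _ _).trans hsub
    obtain ⟨ih1, ih2⟩ := ih hG'
    obtain ⟨h1, h2, h3, h4⟩ := hc i hiG
    have hci := hc0 i hiG
    have hη0 : 0 ≤ ∑ j ∈ G', c j := sum_nonneg fun j hj => hc0 j (hG' hj)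
    have hri : rem U Y G' i = U i := by simp [rem, hi]
    have hBG : Bdd s.Z s.E s.Θ (FU s.N (rem U Y G')) := hB _ (rem_subset U Y hG')
    have hstep : vec s (rem U Y (insert i G')) - vec s (rem U Y G')
        = Delta s (FU s.N (rem U Y G')) i (U i) (Y i) := by
      rw [rem_insert U Y hi, vec_remove s _ i (Y i) (hri ▸ h2) (hri ▸ h3), hri]
    have n1 : ‖Delta s (FU s.N (rem U Y G')) i (U i) (Y i)‖
        ≤ c i * (‖vec s (rem U Y G')‖ + s.Θ * s.τ) :=
      Delta_norm hsum hs hs.hΘ hBG h1 _ _ h3 h4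
    have n2 : ‖Delta s (FU s.N (rem U Y G')) i (U i) (Y i) - Delta s (FU s.N U) i (U i) (Y i)‖
        ≤ c i * (‖vec s (rem U Y G') - vec s U‖ + 2 * s.Θ * s.τ) := by
      rw [← Delta_sub]
      have := Delta_norm hsum hs (mul_nonneg zero_le_two hs.hΘ) (hBG.sub hBU) h1 _ _ h3 h4
      rwa [vecL_sub] at this
    set r := ‖vec s (rem U Y G') - vec s U‖ with hr
    have n3 : ‖vec s (rem U Y G')‖ ≤ r + ‖vec s U‖ := by
      have := norm_add_le (vec s (rem U Y G') - vec s U) (vec s U)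
      rwa [sub_add_cancel] at this
    rw [sum_insert hi, sum_insert hi]
    set η := ∑ j ∈ G', c j
    have hexp : Real.exp η * (1 + c i) ≤ Real.exp (c i + η) := by
      rw [Real.exp_add, mul_comm (Real.exp (c i))]
      gcongr
      linarith [Real.add_one_le_exp (c i)]
    have hexp2 : Real.exp η ≤ Real.exp (c i + η) := Real.exp_le_exp.mpr (by linarith)
    constructor
    · have e : vec s (rem U Y (insert i G')) - vec s U
          = (vec s (rem U Y G') - vec s U) + Delta s (FU s.N (rem U Y G')) i (U i) (Y i) := by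
        rw [← hstep]; abel
      rw [e]
      have := norm_add_le (vec s (rem U Y G') - vec s U)
        (Delta s (FU s.N (rem U Y G')) i (U i) (Y i))
      have h5 : c i * (‖vec s (rem U Y G')‖ + s.Θ * s.τ) ≤ c i * (r + X) := by
        apply mul_le_mul_of_nonneg_left _ hci; rw [hX]; linarith
      have h6 : (r + X) * (1 + c i) ≤ X * Real.exp η * (1 + c i) := by gcongr
      have h7 : X * (Real.exp η * (1 + c i)) ≤ X * Real.exp (c i + η) := by gcongr
      nlinarith
    · have e : vec s (rem U Y (insert i G')) - vec s U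
          - (Delta s (FU s.N U) i (U i) (Y i) + ∑ j ∈ G', Delta s (FU s.N U) j (U j) (Y j))
          = (vec s (rem U Y G') - vec s U - ∑ j ∈ G', Delta s (FU s.N U) j (U j) (Y j))
            + (Delta s (FU s.N (rem U Y G')) i (U i) (Y i)
              - Delta s (FU s.N U) i (U i) (Y i)) := by
        rw [← hstep]; abel
      rw [e]
      refine (norm_add_le _ _).trans ?_
      have h5 : r ≤ X * (Real.exp η - 1) := by linarith
      have h6 : X * (Real.exp η - 1) ≤ X * (Real.exp (c i + η) - 1) := by gcongr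
      have h7 : c i * (r + 2 * s.Θ * s.τ)
          ≤ c i * (X * (Real.exp (c i + η) - 1) + 2 * (s.Θ * s.τ)) := by
        apply mul_le_mul_of_nonneg_left _ hci; linarith
      have h8 : η * (X * (Real.exp η - 1) + 2 * (s.Θ * s.τ))
          ≤ η * (X * (Real.exp (c i + η) - 1) + 2 * (s.Θ * s.τ)) := by gcongr
      linarith

end

end Pool.Agent.P.MP_6da505_nt
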