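import Mathlib
import Pool.Agent.P.MP_6da505_nt.Step

/-! Adding one element: the expected potential of one scale. -/

namespace Pool.Agent.P.MP_6da505_nt

open Finset Function

noncomputable section

set_option linter.unusedSectionVars false

variable {ι : Type} [Fintype ι] [DecidableEq ι] {q : ι → ℕ} [∀ i, NeZero (q i)]

def res (Z : ℝ) (U : St q) : St q := fun i => if (q i : ℝ) ≤ Z then U i else univ

def Phi (s : Sc) (t : ℝ) (U : St q) : ℝ := ‖vec s (res s.Z U)‖ ^ 20 + t ^ 20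

theorem Phi_nonneg (s : Sc) (t : ℝ) (U : St q) : 0 ≤ Phi s t U := by
  unfold Phi; positivity

theorem dens_mono {U U' : St q} (h : ∀ i, U i ⊆ U' i) : dens U ≤ dens U' := by
  unfold dens
  apply prod_le_prod (fun i _ => by positivity)
  intro i _
  gcongr
  exact h i

theorem subset_res (Z : ℝ) (U : St q) (i : ι) : U i ⊆ res Z U i := by
  unfold res; split_ifs <;> simp

theorem res_rem (Z : ℝ) (U Y : St q) (G : Finset ι) :
    res Z (rem U Y G) = rem (res Z U) Y (G.filter fun i => (q i : ℝ) ≤ Z) := by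
  funext i
  unfold res rem
  by_cases h1 : (q i : ℝ) ≤ Z <;> by_cases h2 : i ∈ G <;> simp [h1, h2]

/-- the pair of classes removed when `a` is added. -/
def pr (U : St q) (a : ℕ) : St q := fun i => U i ∩ {(a : Cl q i), -(a : Cl q i)}

def cc (q : ι → ℕ) (i : ι) : ℝ := 8 * gam q i / (q i : ℝ) ^ 2

theorem cc_nonneg (i : ι) : 0 ≤ cc q i := by
  have := one_le_gam (q := q) i
  unfold cc; positivity

theorem pair_ok {i : ι} (W : Finset (Cl q i)) (y : Cl q i) (hW : q i ^ 2 + 4 ≤ 2 * #W) :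
    #(W ∩ {y, -y}) < #W ∧
      2 * #(W ∩ {y, -y}) * gam q i / ((#W : ℝ) - #(W ∩ {y, -y})) ≤ cc q i := by
  have h1 : #(W ∩ {y, -y}) ≤ 2 := (card_le_card inter_subset_right).trans card_le_two
  have h0 : 1 ≤ q i ^ 2 := Nat.one_le_iff_ne_zero.mpr (NeZero.ne _)
  refine ⟨by omega, ?_⟩
  have h1' : (#(W ∩ {y, -y}) : ℝ) ≤ 2 := by exact_mod_cast h1
  have hW' : (q i : ℝ) ^ 2 + 4 ≤ 2 * #W := by exact_mod_cast hW
  have hq := one_le_q (q := q) i
  have hg := one_le_gam (q := q) i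
  unfold cc
  calc _ ≤ 2 * 2 * gam q i / ((q i : ℝ) ^ 2 / 2) := by
        gcongr
        linarith
    _ = _ := by field_simp; ring

theorem sum_neg_eq {β W : Type} [DecidableEq β] [InvolutiveNeg β] [AddCommMonoid W]
    (S : Finset β) (hS : ∀ y ∈ S, -y ∈ S) (f : β → W) : ∑ y ∈ S, f (-y) = ∑ y ∈ S, f y := by
  apply sum_nbij' (fun y => -y) (fun y => -y) <;> simp_all

theorem sum_Delta_pair (s : Sc) (F : PA q → ℝ) (i : ι) (W : Finset (Cl q i))
    (h1 : ∀ y ∈ W, -y ∈ W) (h2 : ∀ y ∈ W, -y ≠ y) :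
    ∑ y ∈ W, Delta s F i W (W ∩ {y, -y}) = 0 := by
  rcases W.eq_empty_or_nonempty with rfl | hW
  · simp
  have hw : (0 : ℝ) < #W := by exact_mod_cast hW.card_pos
  have e : ∀ y ∈ W, Delta s F i W (W ∩ {y, -y}) = (1 / ((#W : ℝ) - 2)) •
      ((2 : ℝ) • avg W (shL s.Z s.E F i) - shL s.Z s.E F i y - shL s.Z s.E F i (-y)) := by
    intro y hy
    have : W ∩ {y, -y} = {y, -y} := by
      apply inter_eq_right.mpr
      intro z hz
      rcases mem_insert.mp hz with rfl | hz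
      · exact hy
      · rw [mem_singleton.mp hz]; exact h1 y hy
    unfold Delta
    rw [this, card_pair (h2 y hy).symm, sum_pair (h2 y hy).symm]
    push_cast
    module
  rw [sum_congr rfl e, ← smul_sum, sum_sub_distrib, sum_sub_distrib, sum_neg_eq W h1, sum_const,
    ← Nat.cast_smul_eq_nsmul ℝ]
  unfold avg
  rw [smul_smul, smul_smul]
  have : (#W : ℝ) * 2 * (1 / #W) = 2 := by field_simp
  rw [this]
  module

def Ca : ℝ := 400 + 16 * Cs

theorem Ca_pos : 0 < Ca := by unfold Ca; linarith [Cs_pos]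

theorem add_one_scale (hsum : ∑ i, 1 / (q i : ℝ) ^ 2 ≤ 1) {s : Sc} (hs : s.OK) {t η ρ Z0 : ℝ}
    (U : St q) (G0 : Finset ι) (B : Finset ℕ) (hBne : B.Nonempty)
    (hη0 : 0 < η) (hη1 : η ≤ 1 / 4) (ht : 0 ≤ t) (hτ : s.Θ * s.τ ≤ η * t)
    (hB : ∀ U' : St q, ρ ≤ dens U' → Bdd s.Z s.E s.Θ (FU s.N U'))
    (hρ : ∀ a, ρ ≤ dens (rem U (pr U a) G0))
    (hG : ∀ i ∈ G0, (∀ y ∈ U i, -y ∈ U i) ∧ (∀ y ∈ U i, -y ≠ y) ∧ q i ^ 2 + 4 ≤ 2 * #(U i))
    (hc1 : ∑ i ∈ G0, cc q i ≤ η)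
    (hc2 : ∑ i ∈ G0.filter (fun i => ¬ (q i : ℝ) ≤ Z0), cc q i ≤ η ^ 2)
    (hmem : ∀ i, (q i : ℝ) ≤ Z0 → ∀ a ∈ B, (a : Cl q i) ∈ U i)
    (heq : ∀ i ∈ G0, (q i : ℝ) ≤ Z0 → ∀ y ∈ U i,
      |(#(B.filter fun a : ℕ => (a : Cl q i) = y) : ℝ) - #B / #(U i)| ≤ η * #B / #(U i)) :
    ∑ a ∈ B, Phi s t (rem U (pr U a) G0) ≤ #B * ((1 + Ca * η ^ 2) * Phi s t U) := by
  set G := G0.filter fun i => (q i : ℝ) ≤ s.Z with hGdef
  set U0 := res s.Z U with hU0
  have hU0i : ∀ i ∈ G, U0 i = U i := by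
    intro i hi
    simp [hU0, res, (mem_filter.mp hi).2]
  set x := vec s U0 with hx
  set M := max ‖x‖ t with hM
  have hxM : ‖x‖ ≤ M := le_max_left _ _
  have htM : t ≤ M := le_max_right _ _
  have hM0 : 0 ≤ M := ht.trans htM
  have hMP : M ^ 20 ≤ Phi s t U := by
    unfold Phi
    rcases max_choice ‖x‖ t with h | h <;> rw [hM, h]
    · have : 0 ≤ t ^ 20 := by positivity
      linarith
    · have : 0 ≤ ‖vec s (res s.Z U)‖ ^ 20 := by positivity
      linarith
  have hτ0 := mul_nonneg hs.hΘ hs.hτ0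
  have hτM : s.Θ * s.τ ≤ η * M := hτ.trans (by gcongr)
  have hX : ‖x‖ + s.Θ * s.τ ≤ 2 * M := by nlinarith
  have hX0 : 0 ≤ ‖x‖ + s.Θ * s.τ := add_nonneg (norm_nonneg _) hτ0
  have hcG0 : 0 ≤ ∑ i ∈ G, cc q i := sum_nonneg fun i _ => cc_nonneg i
  have hcG : ∑ i ∈ G, cc q i ≤ η :=
    (sum_le_sum_of_subset_of_nonneg (filter_subset _ _) fun i _ _ => cc_nonneg i).trans hc1
  have hexp : Real.exp (∑ i ∈ G, cc q i) - 1 ≤ 2 * η := by
    have := Real.abs_exp_sub_one_le (x := ∑ i ∈ G, cc q i) (by rw [abs_of_nonneg hcG0]; linarith)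
    rw [abs_of_nonneg hcG0] at this
    linarith [le_abs_self (Real.exp (∑ i ∈ G, cc q i) - 1)]
  have hexp0 : 0 ≤ Real.exp (∑ i ∈ G, cc q i) - 1 := by
    linarith [Real.add_one_le_exp (∑ i ∈ G, cc q i)]
  have hBd : ∀ a, ∀ U' : St q, (∀ i, rem U0 (pr U a) G i ⊆ U' i) →
      Bdd s.Z s.E s.Θ (FU s.N U') := by
    intro a U' h
    apply hB
    refine (hρ a).trans (dens_mono fun i => (subset_res s.Z _ i).trans ?_)
    rw [res_rem]; exact h i
  have hBU : Bdd s.Z s.E s.Θ (FU s.N U0) := by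
    apply hBd 0
    intro i
    have := rem_subset U0 (pr U 0) (empty_subset G) i
    simpa [rem] using this
  let D : ℕ → V (PA q) := fun a => ∑ i ∈ G, Delta s (FU s.N U0) i (U0 i) (pr U a i)
  have hone : ∀ a, Phi s t (rem U (pr U a) G0)
      ≤ Phi s t U + 20 * ell x (D a) + (240 + 16 * Cs) * η ^ 2 * M ^ 20 := by
    intro a
    obtain ⟨r1, r2⟩ := remove_many hsum hs U0 (pr U a) G (cc q) (hBd a) (by
      intro i hi
      rw [hU0i i hi]
      obtain ⟨p1, p2⟩ := pair_ok (U i) (a : Cl q i) (hG i (mem_filter.mp hi).1).2.2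
      exact ⟨(mem_filter.mp hi).2, inter_subset_left, p1, p2⟩) G Subset.rfl
    rw [← hx] at r1 r2
    set y := vec s (rem U0 (pr U a) G) - x with hy
    have ny : ‖y‖ ≤ 4 * η * M := by
      have : (‖x‖ + s.Θ * s.τ) * (Real.exp (∑ i ∈ G, cc q i) - 1) ≤ 2 * M * (2 * η) := by gcongr
      linarith
    have ne : ‖y - D a‖ ≤ 6 * η ^ 2 * M := by
      refine r2.trans ?_
      have h1 : (‖x‖ + s.Θ * s.τ) * (Real.exp (∑ i ∈ G, cc q i) - 1) ≤ 2 * M * (2 * η) := by
        gcongr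
      calc _ ≤ η * (2 * M * (2 * η) + 2 * (η * M)) := by gcongr
        _ = _ := by ring
    have s1 := smooth x y (by linarith : 0 < 4 * η) (by linarith) hxM ny
    have s2 := ell_le x (y - D a) (by positivity : 0 < 6 * η ^ 2) hxM ne
    have e1 : ell x y = ell x (D a) + ell x (y - D a) := by rw [← ell_add]; congr 1; abel
    have e2 : x + y = vec s (res s.Z (rem U (pr U a) G0)) := by
      rw [res_rem, hy]; abel
    unfold Phi
    rw [← e2]
    nlinarith
  have hb : (0 : ℝ) < #B := by exact_mod_cast hBne.card_pos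
  have hDn : ∀ i ∈ G, ∀ y : Cl q i,
      ‖Delta s (FU s.N U0) i (U i) (U i ∩ {y, -y})‖ ≤ cc q i * (2 * M) := by
    intro i hi y
    obtain ⟨p1, p2⟩ := pair_ok (U i) y (hG i (mem_filter.mp hi).1).2.2
    refine (Delta_norm hsum hs hs.hΘ hBU (mem_filter.mp hi).2 _ _ p1 p2).trans ?_
    exact mul_le_mul_of_nonneg_left hX (cc_nonneg i)
  have hsumD : ‖∑ a ∈ B, D a‖ ≤ 4 * #B * η ^ 2 * M := by
    simp only [D]
    rw [sum_comm]
    refine (norm_sum_le _ _).trans ?_
    have key : ∀ i ∈ G, ‖∑ a ∈ B, Delta s (FU s.N U0) i (U0 i) (pr U a i)‖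
        ≤ #B * (2 * M) * (η * cc q i + if ¬ (q i : ℝ) ≤ Z0 then cc q i else 0) := by
      intro i hi
      rw [hU0i i hi]
      have hi0 := (mem_filter.mp hi).1
      have hcc := cc_nonneg (q := q) i
      by_cases hz : (q i : ℝ) ≤ Z0
      · have hu : (0 : ℝ) < #(U i) := by
          have := (hG i hi0).2.2
          have : 0 < #(U i) := by omega
          exact_mod_cast this
        have e1 : ∑ a ∈ B, Delta s (FU s.N U0) i (U i) (pr U a i)
            = ∑ y ∈ U i, (#(B.filter fun a : ℕ => (a : Cl q i) = y) : ℝ) •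
              Delta s (FU s.N U0) i (U i) (U i ∩ {y, -y}) := by
          rw [← sum_fiberwise_of_maps_to (g := fun a : ℕ => (a : Cl q i)) (hmem i hz)]
          apply sum_congr rfl
          intro y _
          rw [Nat.cast_smul_eq_nsmul, ← sum_const]
          apply sum_congr rfl
          intro a ha
          simp only [pr, (mem_filter.mp ha).2]
        have e2 : ∑ a ∈ B, Delta s (FU s.N U0) i (U i) (pr U a i)
            = ∑ y ∈ U i, ((#(B.filter fun a : ℕ => (a : Cl q i) = y) : ℝ) - #B / #(U i)) •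
              Delta s (FU s.N U0) i (U i) (U i ∩ {y, -y}) := by
          simp only [sub_smul, sum_sub_distrib]
          rw [← smul_sum, sum_Delta_pair s _ i (U i) (hG i hi0).1 (hG i hi0).2.1, smul_zero,
            sub_zero, e1]
        rw [e2]
        refine (norm_sum_le _ _).trans ?_
        have : ∀ y ∈ U i, ‖((#(B.filter fun a : ℕ => (a : Cl q i) = y) : ℝ) - #B / #(U i)) •
              Delta s (FU s.N U0) i (U i) (U i ∩ {y, -y})‖
              ≤ η * #B / #(U i) * (cc q i * (2 * M)) := by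
          intro y hy
          rw [norm_smul, Real.norm_eq_abs]
          exact mul_le_mul (heq i hi0 hz y hy) (hDn i hi y) (norm_nonneg _) (by positivity)
        refine (sum_le_card_nsmul _ _ _ this).trans ?_
        rw [nsmul_eq_mul, if_neg (not_not.mpr hz)]
        apply le_of_eq
        field_simp
        ring
      · refine (norm_sum_le _ _).trans ?_
        refine (sum_le_card_nsmul B _ (cc q i * (2 * M))
          fun a _ => hDn i hi (a : Cl q i)).trans ?_
        rw [nsmul_eq_mul, if_pos hz]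
        have : 0 ≤ #B * (2 * M) * (η * cc q i) := by positivity
        nlinarith
    refine (sum_le_sum key).trans ?_
    rw [← mul_sum, sum_add_distrib, ← mul_sum, ← sum_filter]
    have h3 : ∑ i ∈ G.filter (fun i => ¬ (q i : ℝ) ≤ Z0), cc q i ≤ η ^ 2 := by
      refine le_trans (sum_le_sum_of_subset_of_nonneg ?_ fun i _ _ => cc_nonneg i) hc2
      exact filter_subset_filter _ (filter_subset _ _)
    calc _ ≤ #B * (2 * M) * (η * η + η ^ 2) := by gcongr
      _ = _ := by ring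
  have s3 := ell_le x (∑ a ∈ B, D a) (by positivity : 0 < 4 * (#B : ℝ) * η ^ 2) hxM hsumD
  rw [ell_sum] at s3
  calc _ ≤ ∑ a ∈ B, (Phi s t U + 20 * ell x (D a) + (240 + 16 * Cs) * η ^ 2 * M ^ 20) :=
        sum_le_sum fun a _ => hone a
    _ = #B * Phi s t U + 20 * ∑ a ∈ B, ell x (D a)
        + #B * ((240 + 16 * Cs) * η ^ 2 * M ^ 20) := by
        rw [sum_add_distrib, sum_add_distrib, sum_const, sum_const, nsmul_eq_mul, nsmul_eq_mul,
          ← mul_sum]
    _ ≤ #B * Phi s t U + 20 * (2 * (4 * #B * η ^ 2) * M ^ 20)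
        + #B * ((240 + 16 * Cs) * η ^ 2 * M ^ 20) := by gcongr
    _ = #B * (Phi s t U + Ca * η ^ 2 * M ^ 20) := by unfold Ca; ring
    _ ≤ #B * (Phi s t U + Ca * η ^ 2 * Phi s t U) := by
        have := Ca_pos
        gcongr
    _ = _ := by ring

end

end Pool.Agent.P.MP_6da505_nt
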