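import Mathlib
import Pool.Agent.P.MP_6da505_nt.Add

/-! Choosing a half set for one modulus, and the potential summed over all scales. -/

namespace Pool.Agent.P.MP_6da505_nt

open Finset Function

noncomputable section

set_option linter.unusedSectionVars false

theorem balance {κ β σ : Type} [Fintype κ] [DecidableEq β] [InvolutiveNeg β] (S : Finset σ)
    (w M : σ → ℝ) (x : σ → V κ) (v : σ → β → V κ) {θ : ℝ} (h0 : 0 < θ) (h1 : θ ≤ 1)
    (hw : ∀ s ∈ S, 0 ≤ w s) (hv : ∀ s ∈ S, ∀ y, ‖v s y‖ ≤ θ * M s)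
    (hneg : ∀ s y, v s (-y) = - v s y) :
    ∀ (n : ℕ) (W : Finset β), #W = n → (∀ y ∈ W, -y ∈ W) → (∀ y ∈ W, -y ≠ y) →
      ∃ W' ⊆ W, (∀ y ∈ W', -y ∉ W') ∧ 2 * #W' = #W ∧
        ∑ s ∈ S, w s * (‖x s + ∑ y ∈ W', v s y‖ ^ 20 + M s ^ 20)
          ≤ (1 + Cs * θ ^ 2) ^ #W' * ∑ s ∈ S, w s * (‖x s‖ ^ 20 + M s ^ 20) := by
  intro n
  induction n using Nat.strong_induction_on with
  | _ n ih =>
  intro W hn hsym hfp
  rcases W.eq_empty_or_nonempty with rfl | ⟨y, hy⟩
  · exact ⟨∅, Subset.rfl, by simp, by simp, by simp⟩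
  have hsub : ({y, -y} : Finset β) ⊆ W := by
    intro z hz
    rcases mem_insert.mp hz with rfl | hz
    · exact hy
    · rw [mem_singleton.mp hz]; exact hsym y hy
  have hc2 : #({y, -y} : Finset β) = 2 := card_pair (hfp y hy).symm
  have hcard : #(W \ {y, -y}) = #W - 2 := by rw [card_sdiff_of_subset hsub, hc2]
  have hle : 2 ≤ #W := hc2 ▸ card_le_card hsub
  obtain ⟨W1, s1, s2, s3, s4⟩ := ih (#W - 2) (by omega) (W \ {y, -y}) hcard (by
      intro z hz
      simp only [mem_sdiff, mem_insert, mem_singleton, not_or] at hz ⊢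
      refine ⟨hsym z hz.1, ?_, ?_⟩
      · intro h; exact hz.2.2 (by rw [← h, neg_neg])
      · intro h; exact hz.2.1 (neg_injective h))
    (fun z hz => hfp z (mem_sdiff.mp hz).1)
  set z : σ → V κ := fun s => x s + ∑ y ∈ W1, v s y with hz
  have key : ∑ s ∈ S, w s * (‖z s + v s y‖ ^ 20 + M s ^ 20)
      + ∑ s ∈ S, w s * (‖z s + v s (-y)‖ ^ 20 + M s ^ 20)
      ≤ 2 * ((1 + Cs * θ ^ 2) * ∑ s ∈ S, w s * (‖z s‖ ^ 20 + M s ^ 20)) := by
    rw [← sum_add_distrib, mul_sum, mul_sum]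
    apply sum_le_sum
    intro s hs
    have hM' : ‖v s y‖ ≤ θ * max ‖z s‖ (M s) :=
      (hv s hs y).trans (mul_le_mul_of_nonneg_left (le_max_right _ _) h0.le)
    have a1 := smooth (z s) (v s y) h0 h1 (le_max_left ‖z s‖ (M s)) hM'
    have a2 := smooth (z s) (- v s y) h0 h1 (le_max_left ‖z s‖ (M s)) (by rwa [norm_neg])
    rw [ell_neg] at a2
    have a3 : max ‖z s‖ (M s) ^ 20 ≤ ‖z s‖ ^ 20 + M s ^ 20 := by
      have b1 : 0 ≤ M s ^ 20 := by positivity
      have b2 : 0 ≤ ‖z s‖ ^ 20 := by positivity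
      rcases max_choice ‖z s‖ (M s) with h | h <;> rw [h] <;> linarith
    have a4 : Cs * θ ^ 2 * max ‖z s‖ (M s) ^ 20 ≤ Cs * θ ^ 2 * (‖z s‖ ^ 20 + M s ^ 20) := by
      have := Cs_pos
      gcongr
    rw [hneg]
    have a5 : (‖z s + v s y‖ ^ 20 + M s ^ 20) + (‖z s + -v s y‖ ^ 20 + M s ^ 20)
        ≤ 2 * ((1 + Cs * θ ^ 2) * (‖z s‖ ^ 20 + M s ^ 20)) := by linarith
    have := mul_le_mul_of_nonneg_left a5 (hw s hs)
    linarith
  have hpos : 0 ≤ 1 + Cs * θ ^ 2 := by have := Cs_pos; positivity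
  have main : ∀ y' : β, y' ∈ W → y' ∉ W \ {y, -y} → -y' ∉ W \ {y, -y} →
      ∑ s ∈ S, w s * (‖z s + v s y'‖ ^ 20 + M s ^ 20)
        ≤ (1 + Cs * θ ^ 2) * ∑ s ∈ S, w s * (‖z s‖ ^ 20 + M s ^ 20) →
      ∃ W' ⊆ W, (∀ y ∈ W', -y ∉ W') ∧ 2 * #W' = #W ∧
        ∑ s ∈ S, w s * (‖x s + ∑ y ∈ W', v s y‖ ^ 20 + M s ^ 20)
          ≤ (1 + Cs * θ ^ 2) ^ #W' * ∑ s ∈ S, w s * (‖x s‖ ^ 20 + M s ^ 20) := by
    intro y' m1 m2 m3 m4
    have n1 : y' ∉ W1 := fun h => m2 (s1 h)
    have n2 : -y' ∉ W1 := fun h => m3 (s1 h)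
    refine ⟨insert y' W1, ?_, ?_, ?_, ?_⟩
    · exact insert_subset m1 (s1.trans sdiff_subset)
    · intro u hu hu'
      rcases mem_insert.mp hu with rfl | hu
      · rcases mem_insert.mp hu' with h | h
        · exact hfp u m1 h
        · exact n2 h
      · rcases mem_insert.mp hu' with h | h
        · exact n2 (by rw [← h, neg_neg]; exact hu)
        · exact s2 u hu h
    · rw [card_insert_of_notMem n1]; omega
    · rw [card_insert_of_notMem n1, pow_succ', mul_assoc]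
      refine le_trans (le_of_eq ?_) (m4.trans (mul_le_mul_of_nonneg_left s4 hpos))
      apply sum_congr rfl
      intro s _
      have : x s + (v s y' + ∑ y ∈ W1, v s y) = z s + v s y' := by
        simp only [hz]; abel
      rw [sum_insert n1, this]
  by_cases h : ∑ s ∈ S, w s * (‖z s + v s y‖ ^ 20 + M s ^ 20)
        ≤ (1 + Cs * θ ^ 2) * ∑ s ∈ S, w s * (‖z s‖ ^ 20 + M s ^ 20)
  · exact main y hy (by simp) (by simp) h
  · exact main (-y) (hsym y hy) (by simp) (by simp) (by linarith)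

variable {ι : Type} [Fintype ι] [DecidableEq ι] {q : ι → ℕ} [∀ i, NeZero (q i)]

def Psi {σ : Type} (S : Finset σ) (sc : σ → Sc) (t w : σ → ℝ) (U : St q) : ℝ :=
  ∑ s ∈ S, w s * Phi (sc s) (t s) U

theorem res_update (Z : ℝ) (U : St q) (i : ι) (W : Finset (Cl q i)) :
    res Z (update U i W) = if (q i : ℝ) ≤ Z then update (res Z U) i W else res Z U := by
  funext j
  by_cases hj : j = i
  · subst hj
    by_cases h : (q j : ℝ) ≤ Z <;> simp [res, h]
  · by_cases h : (q i : ℝ) ≤ Z <;> simp [res, h, update_of_ne hj]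

theorem commit_one (hsum : ∑ i, 1 / (q i : ℝ) ^ 2 ≤ 1) {σ : Type} (S : Finset σ) (sc : σ → Sc)
    (t w : σ → ℝ) (U : St q) (i : ι)
    (hs : ∀ s ∈ S, (sc s).OK ∧ 0 ≤ w s ∧ (sc s).Θ * (sc s).τ ≤ t s ∧
      Bdd (sc s).Z (sc s).E (sc s).Θ (FU (sc s).N (res (sc s).Z U)))
    (h1 : ∀ y ∈ U i, -y ∈ U i) (h2 : ∀ y ∈ U i, -y ≠ y) (h3 : q i ^ 2 ≤ 2 * #(U i))
    (h4 : 4 * gam q i ≤ #(U i)) :
    ∃ W ⊆ U i, (∀ y ∈ W, -y ∉ W) ∧ 2 * #W = #(U i) ∧
      Psi S sc t w (update U i W)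
        ≤ Real.exp (32 * Cs * (gam q i ^ 2 / (q i : ℝ) ^ 2)) * Psi S sc t w U := by
  have hg := one_le_gam (q := q) i
  have hq := one_le_q (q := q) i
  have hu : (0 : ℝ) < #(U i) := by linarith
  set θ : ℝ := 4 * gam q i / #(U i) with hθ
  have hθ0 : 0 < θ := by positivity
  have hθ1 : θ ≤ 1 := by rw [hθ, div_le_one hu]; exact h4
  let x : σ → V (PA q) := fun s => vec (sc s) (res (sc s).Z U)
  let M : σ → ℝ := fun s => max ‖x s‖ (t s)
  let f : σ → Cl q i → V (PA q) := fun s =>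
    shL (sc s).Z (sc s).E (FU (sc s).N (res (sc s).Z U)) i
  let v : σ → Cl q i → V (PA q) := fun s y =>
    if (q i : ℝ) ≤ (sc s).Z then (1 / (#(U i) : ℝ)) • (f s y - f s (-y)) else 0
  have hM0 : ∀ s, 0 ≤ M s := fun s => (norm_nonneg _).trans (le_max_left _ _)
  obtain ⟨W, w1, w2, w3, w4⟩ := balance S w M x v hθ0 hθ1 (fun s hs' => (hs s hs').2.1) (by
      intro s hs' y
      obtain ⟨a1, _, a3, a4⟩ := hs s hs'
      simp only [v]
      split_ifs with h
      · have hf : ∀ y, ‖f s y‖ ≤ gam q i * (2 * M s) := by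
          intro y
          refine (sh_norm hsum a1.hE a1.hΘ a1.hτ0 a1.hτ a4 h y).trans ?_
          have b1 : ‖x s‖ ≤ M s := le_max_left _ _
          have b2 : t s ≤ M s := le_max_right _ _
          have b3 : gam q i * ‖x s‖ ≤ gam q i * M s := by gcongr
          have b4 : M s ≤ gam q i * M s := by nlinarith [hM0 s]
          change gam q i * ‖x s‖ + _ ≤ _
          linarith
        rw [norm_smul, Real.norm_eq_abs, abs_of_pos (by positivity)]
        have := norm_sub_le (f s y) (f s (-y))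
        calc _ ≤ 1 / (#(U i) : ℝ) * (gam q i * (2 * M s) + gam q i * (2 * M s)) := by
              gcongr
              linarith [hf y, hf (-y)]
          _ = _ := by rw [hθ]; ring
      · rw [norm_zero]; exact mul_nonneg hθ0.le (hM0 s))
    (by
      intro s y
      simp only [v]
      split_ifs
      · rw [neg_neg, ← smul_neg, neg_sub]
      · simp) _ (U i) rfl h1 h2
  refine ⟨W, w1, w2, w3, ?_⟩
  have hUne : (U i).Nonempty := by rw [← card_pos]; exact_mod_cast hu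
  have hWne : W.Nonempty := by
    rw [← card_pos]; have := hUne.card_pos; omega
  have hw3 : (#(U i) : ℝ) = 2 * #W := by exact_mod_cast w3.symm
  have hW0 : (0 : ℝ) < #W := by linarith
  have hsplit : ∀ g : Cl q i → V (PA q), ∑ y ∈ U i, g y = ∑ y ∈ W, g y + ∑ y ∈ W, g (-y) := by
    intro g
    have hd : Disjoint W (W.image fun y => -y) := by
      rw [disjoint_left]
      intro y hy hy'
      obtain ⟨u, hu, rfl⟩ := mem_image.mp hy'
      exact w2 u hu hy
    have hun : U i = W ∪ W.image fun y => -y := by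
      symm
      apply eq_of_subset_of_card_le
      · apply union_subset w1
        intro y hy
        obtain ⟨u, hu, rfl⟩ := mem_image.mp hy
        exact h1 u (w1 hu)
      · rw [card_union_of_disjoint hd, card_image_of_injective _ neg_injective]; omega
    rw [hun, sum_union hd, sum_image (fun a _ b _ h => neg_injective h)]
  have hvec : ∀ s, vec (sc s) (res (sc s).Z (update U i W)) = x s + ∑ y ∈ W, v s y := by
    intro s
    rw [res_update]
    simp only [v]
    split_ifs with h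
    · have hr : res (sc s).Z U i = U i := by simp [res, h]
      have := vec_update (sc s) (res (sc s).Z U) i W hWne (hr ▸ hUne)
      rw [hr] at this
      rw [sub_eq_iff_eq_add'.mp this]
      congr 1
      change avg W (f s) - avg (U i) (f s) = _
      unfold avg
      rw [hsplit (f s), ← smul_sum, sum_sub_distrib, hw3]
      have : 1 / (#W : ℝ) = 2 * (1 / (2 * #W)) := by field_simp
      rw [this]
      module
    · simp [x]
  have hP0 : 0 ≤ Psi S sc t w U :=
    sum_nonneg fun s hs' => mul_nonneg (hs s hs').2.1 (Phi_nonneg _ _ _)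
  have hA : ∑ s ∈ S, w s * (‖x s‖ ^ 20 + M s ^ 20) ≤ 2 * Psi S sc t w U := by
    unfold Psi
    rw [mul_sum]
    apply sum_le_sum
    intro s hs'
    have b1 : 0 ≤ t s ^ 20 := by positivity
    have b2 : 0 ≤ ‖x s‖ ^ 20 := by positivity
    have a3 : M s ^ 20 ≤ ‖x s‖ ^ 20 + t s ^ 20 := by
      rcases max_choice ‖x s‖ (t s) with h | h <;> simp only [M, h] <;> linarith
    have : ‖x s‖ ^ 20 + M s ^ 20 ≤ 2 * Phi (sc s) (t s) U := by
      change _ ≤ 2 * (‖x s‖ ^ 20 + t s ^ 20)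
      linarith
    have := mul_le_mul_of_nonneg_left this (hs s hs').2.1
    linarith
  have hdiff : Psi S sc t w (update U i W) - Psi S sc t w U
      = ∑ s ∈ S, w s * (‖x s + ∑ y ∈ W, v s y‖ ^ 20 + M s ^ 20)
        - ∑ s ∈ S, w s * (‖x s‖ ^ 20 + M s ^ 20) := by
    unfold Psi Phi
    rw [← sum_sub_distrib, ← sum_sub_distrib]
    apply sum_congr rfl
    intro s _
    rw [hvec]
    simp only [x]
    ring
  set z := 16 * Cs * (gam q i ^ 2 / (q i : ℝ) ^ 2) with hz
  have hCs := Cs_pos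
  have hpow : (1 + Cs * θ ^ 2) ^ #W ≤ Real.exp z := by
    calc (1 + Cs * θ ^ 2) ^ #W ≤ Real.exp (Cs * θ ^ 2) ^ #W := by
          gcongr
          linarith [Real.add_one_le_exp (Cs * θ ^ 2)]
      _ = Real.exp (#W * (Cs * θ ^ 2)) := by rw [Real.exp_nat_mul]
      _ ≤ Real.exp z := by
          apply Real.exp_le_exp.mpr
          have h3' : (q i : ℝ) ^ 2 ≤ 4 * #W := by
            have : (q i : ℝ) ^ 2 ≤ 2 * #(U i) := by exact_mod_cast h3
            linarith
          calc #W * (Cs * θ ^ 2) = 16 * Cs * (gam q i ^ 2 / (4 * #W)) := by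
                rw [hθ, hw3]; field_simp; ring
            _ ≤ z := by rw [hz]; gcongr
  have hA0 : 0 ≤ ∑ s ∈ S, w s * (‖x s‖ ^ 20 + M s ^ 20) :=
    sum_nonneg fun s hs' => mul_nonneg (hs s hs').2.1 (by positivity)
  have he1 : 1 ≤ Real.exp z := Real.one_le_exp (by rw [hz]; positivity)
  have e2 : Real.exp (32 * Cs * (gam q i ^ 2 / (q i : ℝ) ^ 2)) = Real.exp z * Real.exp z := by
    rw [← Real.exp_add, hz]; congr 1; ring
  rw [e2]
  set A := ∑ s ∈ S, w s * (‖x s‖ ^ 20 + M s ^ 20)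
  have c1 : (1 + Cs * θ ^ 2) ^ #W * A ≤ Real.exp z * A := by gcongr
  have c2 : (Real.exp z - 1) * A ≤ (Real.exp z - 1) * (2 * Psi S sc t w U) := by
    apply mul_le_mul_of_nonneg_left hA; linarith
  have c3 : 0 ≤ (Real.exp z - 1) ^ 2 * Psi S sc t w U := by positivity
  nlinarith

end

end Pool.Agent.P.MP_6da505_nt
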