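import Mathlib
import Pool.Agent.P.MP_6da505_nt.Commit

/-! Counting integers in boxes through the Chinese remainder theorem. -/

namespace Pool.Agent.P.MP_6da505_nt

open Finset Function

noncomputable section

set_option linter.unusedSectionVars false

variable {ι : Type} [Fintype ι] [DecidableEq ι] {q : ι → ℕ} [∀ i, NeZero (q i)]

theorem modEq_prod {s : ι → ℕ} (hs : Pairwise (Nat.Coprime on s)) {a b : ℕ} (T : Finset ι)
    (h : ∀ i ∈ T, a ≡ b [MOD s i]) : a ≡ b [MOD ∏ i ∈ T, s i] := by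
  induction T using Finset.induction_on with
  | empty => simp [Nat.modEq_one]
  | insert i T hi ih =>
    rw [prod_insert hi]
    apply (Nat.modEq_and_modEq_iff_modEq_mul _).mp
      ⟨h i (mem_insert_self _ _), ih fun j hj => h j (mem_insert_of_mem hj)⟩
    apply Nat.Coprime.prod_right
    intro j hj
    exact hs (fun e => hi (e ▸ hj))

theorem count_mod (N d k : ℕ) (hd : 0 < d) :
    |(#((range N).filter fun b => b ≡ k [MOD d]) : ℝ) - N / d| ≤ 1 := by
  rw [← Nat.count_eq_card_filter_range, Nat.count_modEq_card N hd k]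
  have h1 : ((N / d : ℕ) : ℝ) ≤ N / d := Nat.cast_div_le
  have hd' : (0 : ℝ) < d := by exact_mod_cast hd
  have h2 : (N : ℝ) / d < (N / d : ℕ) + 1 := by
    rw [div_lt_iff₀ hd']
    have := Nat.lt_div_mul_add (a := N) hd
    have h3 : (N : ℝ) < ((N / d * d + d : ℕ) : ℝ) := by exact_mod_cast this
    push_cast at h3
    linarith
  rw [abs_le]
  split_ifs <;> push_cast <;> constructor <;> linarith

theorem count_cyl (hcop : Pairwise (Nat.Coprime on q)) (N : ℕ) (Q : PA q) :
    |(#(pts N (box (fun _ => univ) Q)) : ℝ) - N / (ee Q : ℝ) ^ 2| ≤ 1 := by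
  let s : ι → ℕ := fun i => (Q i).elim 1 (fun _ => q i ^ 2)
  let a : ι → ℕ := fun i => (Q i).elim 0 ZMod.val
  have hs : Pairwise (Nat.Coprime on s) := by
    intro i j hij
    simp only [onFun, s]
    cases Q i <;> cases Q j <;> simp
    exact hcop hij
  have hs0 : ∀ i, s i ≠ 0 := by
    intro i
    simp only [s]
    cases Q i with
    | none => simp
    | some y => exact NeZero.ne (q i ^ 2)
  obtain ⟨k, hk⟩ := Nat.chineseRemainderOfFinset a s univ (fun i _ => hs0 i)
    (fun i _ j _ hij => hs hij)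
  have hd : ∏ i, s i = ee Q ^ 2 := by
    unfold ee
    rw [← prod_pow]
    apply prod_congr rfl
    intro i _
    simp only [s]
    cases Q i <;> simp
  have key : ∀ (b : ℕ) (i : ι), (b : Cl q i) ∈ box (fun _ => univ) Q i ↔ b ≡ a i [MOD s i] := by
    intro b i
    simp only [box, s, a]
    cases Q i with
    | none => simp [Nat.modEq_one]
    | some y =>
      simp only [Option.elim_some, mem_singleton]
      rw [← ZMod.natCast_eq_natCast_iff, ZMod.natCast_zmod_val]
  have e : pts N (box (fun _ => univ) Q) = (range N).filter fun b => b ≡ k [MOD ee Q ^ 2] := by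
    unfold pts
    apply filter_congr
    intro b _
    simp only [key]
    rw [← hd]
    constructor
    · intro h
      exact modEq_prod hs univ fun i _ => (h i).trans (hk i (mem_univ _)).symm
    · intro h i
      exact (h.of_dvd (dvd_prod_of_mem s (mem_univ i))).trans (hk i (mem_univ _))
  rw [e]
  have := count_mod N (ee Q ^ 2) k (pow_pos (one_le_ee Q) 2)
  simpa using this

theorem card_le_sq (i : ι) (W : Finset (Cl q i)) : (#W : ℝ) ≤ (q i : ℝ) ^ 2 := by
  have := card_le_univ W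
  rw [ZMod.card] at this
  exact_mod_cast this

theorem dens_nonneg (U : St q) : 0 ≤ dens U := prod_nonneg fun i _ => by positivity

theorem dens_univ : dens (fun _ => univ : St q) = 1 := by
  unfold dens
  apply prod_eq_one
  intro i _
  have := one_le_q (q := q) i
  rw [card_univ, ZMod.card]
  push_cast
  field_simp

theorem dens_le_one (U : St q) : dens U ≤ 1 := by
  rw [← dens_univ (q := q)]
  exact dens_mono fun i => subset_univ _

theorem inv_ee_sq (Q : PA q) :
    1 / (ee Q : ℝ) ^ 2 = ∏ i, (Q i).elim (1 : ℝ) (fun _ => 1 / (q i : ℝ) ^ 2) := by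
  unfold ee
  rw [Nat.cast_prod, ← prod_pow, one_div, ← prod_inv_distrib]
  apply prod_congr rfl
  intro i _
  cases Q i <;> simp

theorem dens_box_univ (Q : PA q) : dens (box (fun _ => univ) Q) = 1 / (ee Q : ℝ) ^ 2 := by
  rw [inv_ee_sq]
  unfold dens
  apply prod_congr rfl
  intro i _
  have := one_le_q (q := q) i
  simp only [box]
  cases Q i with
  | none =>
    simp only [Option.elim_none]
    rw [card_univ, ZMod.card]
    push_cast
    field_simp
  | some y => simp

theorem dens_box_ge (U : St q) (Q : PA q) : dens U * (1 / (ee Q : ℝ) ^ 2) ≤ dens (box U Q) := by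
  rw [inv_ee_sq]
  unfold dens
  rw [← prod_mul_distrib]
  apply prod_le_prod
  · intro i _
    cases Q i <;> simp only [Option.elim_none, Option.elim_some] <;> positivity
  · intro i _
    have := one_le_q (q := q) i
    simp only [box]
    cases Q i with
    | none => simp
    | some y =>
      simp only [Option.elim_some, card_singleton, Nat.cast_one]
      apply mul_le_of_le_one_left (by positivity)
      rw [div_le_one (by positivity)]
      exact card_le_sq i _

theorem pts_mono (N : ℕ) {T T' : St q} (h : ∀ i, T i ⊆ T' i) : pts N T ⊆ pts N T' := by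
  intro b hb
  simp only [pts, mem_filter] at hb ⊢
  exact ⟨hb.1, fun i => h i (hb.2 i)⟩

theorem bdd_of_dens (hcop : Pairwise (Nat.Coprime on q)) {N : ℕ} {Z E Θ ρ : ℝ}
    (hN : (E * Z) ^ 2 ≤ N) (hρ : 0 < ρ) (hΘ : 2 / ρ ≤ Θ) (U : St q) (hU : ρ ≤ dens U) :
    Bdd Z E Θ (FU N U) := by
  intro Q _ h2
  have he : (1 : ℝ) ≤ ee Q := by exact_mod_cast one_le_ee Q
  have h3 : (ee Q : ℝ) ^ 2 ≤ N := (pow_le_pow_left₀ (by linarith) h2 2).trans hN
  have h4 : (1 : ℝ) ≤ (ee Q : ℝ) ^ 2 := one_le_pow₀ he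
  have hN0 : (0 : ℝ) < N := by linarith
  have h5 : (1 : ℝ) ≤ N / (ee Q : ℝ) ^ 2 := by rw [le_div_iff₀ (by linarith)]; linarith
  have c1 : (#(pts N (box U Q)) : ℝ) ≤ 2 * (N / (ee Q : ℝ) ^ 2) := by
    have a1 : #(pts N (box U Q)) ≤ #(pts N (box (fun _ => univ) Q)) := by
      apply card_le_card
      apply pts_mono
      intro i
      simp only [box]
      cases Q i <;> simp
    have a2 := (abs_le.mp (count_cyl hcop N Q)).2
    have a3 : (#(pts N (box U Q)) : ℝ) ≤ #(pts N (box (fun _ => univ) Q)) := by exact_mod_cast a1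
    linarith
  have c2 : ρ * (1 / (ee Q : ℝ) ^ 2) ≤ dens (box U Q) :=
    le_trans (by gcongr) (dens_box_ge U Q)
  have c3 : (#(pts N (box U Q)) : ℝ) / (N * dens (box U Q)) ≤ 2 / ρ := by
    calc _ ≤ 2 * (N / (ee Q : ℝ) ^ 2) / (N * (ρ * (1 / (ee Q : ℝ) ^ 2))) := by gcongr
      _ = _ := by field_simp
  have c4 : 0 ≤ (#(pts N (box U Q)) : ℝ) / (N * dens (box U Q)) :=
    div_nonneg (Nat.cast_nonneg _) (mul_nonneg hN0.le (dens_nonneg _))
  have c5 : 1 ≤ 2 / ρ := by
    rw [le_div_iff₀ hρ]; linarith [dens_le_one U]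
  unfold FU dev
  rw [abs_le]
  constructor <;> linarith

theorem vec_init (hcop : Pairwise (Nat.Coprime on q)) (hsum : ∑ i, 1 / (q i : ℝ) ^ 2 ≤ 1)
    (s : Sc) (hN : 0 < s.N) : ‖vec s (fun _ => univ : St q)‖ ≤ 2 * (s.E ^ 2 / s.N) := by
  have hN0 : (0 : ℝ) < s.N := by exact_mod_cast hN
  apply norm_le_of_sum_le _ (by positivity)
  have key : ∀ Q : PA q, vec s (fun _ => univ : St q) Q ^ 20
      ≤ (s.E ^ 2 / s.N) ^ 20 * (1 / (ee Q : ℝ) ^ 4) := by
    intro Q
    have he : (1 : ℝ) ≤ ee Q := by exact_mod_cast one_le_ee Q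
    simp only [vec, vecL]
    split_ifs with h
    · rw [div_pow, gamQ_pow20]
      have hb : |FU s.N (fun _ => univ : St q) Q| ≤ s.E ^ 2 / s.N := by
        unfold FU dev
        rw [dens_box_univ]
        have a1 := count_cyl hcop s.N Q
        have e : (#(pts s.N (box (fun _ => univ) Q)) : ℝ) / (s.N * (1 / (ee Q : ℝ) ^ 2)) - 1
            = ((#(pts s.N (box (fun _ => univ) Q)) : ℝ) - s.N / (ee Q : ℝ) ^ 2)
              * ((ee Q : ℝ) ^ 2 / s.N) := by field_simp
        rw [e, abs_mul, abs_of_nonneg (by positivity : (0 : ℝ) ≤ (ee Q : ℝ) ^ 2 / s.N)]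
        have a2 : (ee Q : ℝ) ^ 2 / s.N ≤ s.E ^ 2 / s.N := by
          have := h.2
          gcongr
        calc _ ≤ 1 * (s.E ^ 2 / s.N) := by gcongr
          _ = _ := one_mul _
      have hb2 : FU s.N (fun _ => univ : St q) Q ^ 20 ≤ (s.E ^ 2 / s.N) ^ 20 := by
        rw [← Even.pow_abs (by decide : Even 20)]
        exact pow_le_pow_left₀ (abs_nonneg _) hb _
      have h5 : (ee Q : ℝ) ^ 4 ≤ (ee Q : ℝ) ^ 5 := pow_le_pow_right₀ he (by norm_num)
      calc _ ≤ (s.E ^ 2 / s.N) ^ 20 / (ee Q : ℝ) ^ 4 := by gcongr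
        _ = _ := by ring
    · have : (0 : ℝ) ^ 20 = 0 := by norm_num
      rw [this]; positivity
  calc _ ≤ ∑ Q : PA q, (s.E ^ 2 / s.N) ^ 20 * (1 / (ee Q : ℝ) ^ 4) := sum_le_sum fun Q _ => key Q
    _ = (s.E ^ 2 / s.N) ^ 20 * ∑ Q : PA q, (1 / (ee Q : ℝ) ^ 4) := by rw [mul_sum]
    _ ≤ (s.E ^ 2 / s.N) ^ 20 * 3 := by gcongr; exact sum_inv_ee hsum
    _ ≤ (s.E ^ 2 / s.N) ^ 20 * 2 ^ 20 := by gcongr; norm_num
    _ = _ := by ring

theorem dens_update (T : St q) (i : ι) (W : Finset (Cl q i)) : dens (update T i W)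
    = (#W : ℝ) / (q i : ℝ) ^ 2 * ∏ j ∈ univ.erase i, (#(T j) : ℝ) / (q j : ℝ) ^ 2 := by
  unfold dens
  rw [← mul_prod_erase univ _ (mem_univ i), update_self]
  congr 1
  apply prod_congr rfl
  intro j hj
  rw [update_of_ne (ne_of_mem_erase hj)]

theorem card_eq_dev {N : ℕ} {T : St q} (h : 0 < (N : ℝ) * dens T) :
    (#(pts N T) : ℝ) = N * dens T * (1 + dev N T) := by
  unfold dev
  rw [add_sub_cancel, mul_div_cancel₀ _ h.ne']

/-- small potential gives a large and well distributed sample set. -/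
theorem sample (s : Sc) (U : St q) {δ : ℝ} (hN : 0 < s.N) (hU : 0 < dens U) (hE : 1 ≤ s.E)
    (hZE : s.Z ≤ s.E) (hδ : δ ≤ 1 / 3) (h0 : ‖vec s U‖ ≤ δ)
    (h1 : ∀ i, (q i : ℝ) ≤ s.Z → gam q i * ‖vec s U‖ ≤ δ) :
    s.N * dens U / 2 ≤ #(pts s.N U) ∧ ∀ i, (q i : ℝ) ≤ s.Z → ∀ y ∈ U i,
      |(#((pts s.N U).filter fun a : ℕ => (a : Cl q i) = y) : ℝ) - #(pts s.N U) / #(U i)|
        ≤ 3 * δ * #(pts s.N U) / #(U i) := by
  have hN0 : (0 : ℝ) < s.N := by exact_mod_cast hN
  let Q0 : PA q := fun _ => none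
  have b0 : box U Q0 = U := rfl
  have e0 : ee Q0 = 1 := by simp [ee, Q0]
  have g0 : gamQ Q0 = 1 := by simp [gamQ, e0]
  have s0 : supp s.Z Q0 := fun i hi => absurd rfl hi
  have t0 : tracked s.Z s.E Q0 := ⟨s0, by rw [e0]; exact_mod_cast hE⟩
  have d0 : |dev s.N U| ≤ δ := by
    have := abs_le_norm (vec s U) Q0
    simp only [vec, vecL, t0, if_true, g0, div_one, FU, b0] at this
    exact this.trans h0
  have hP : 0 < (s.N : ℝ) * dens U := by positivity
  have c0 := card_eq_dev hP
  have hδ0 : 0 ≤ δ := (abs_nonneg _).trans d0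
  have l0 : s.N * dens U * (2 / 3) ≤ #(pts s.N U) := by
    rw [c0]
    have := (abs_le.mp d0).1
    gcongr
    linarith
  refine ⟨by linarith, fun i hi y hy => ?_⟩
  have hu : (0 : ℝ) < #(U i) := by exact_mod_cast card_pos.mpr ⟨y, hy⟩
  have hq := one_le_q (q := q) i
  have hg := one_le_gam (q := q) i
  have t1 : tracked s.Z s.E (update Q0 i (some y)) :=
    ⟨supp_update s0 hi y, by rw [ee_update Q0 i y rfl, e0]; push_cast; linarith⟩
  have d1 : |dev s.N (update U i {y})| ≤ δ := by
    have := abs_le_norm (vec s U) (update Q0 i (some y))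
    simp only [vec, vecL, t1, if_true, gamQ_update Q0 i y rfl, g0, one_mul, FU, box_update_Q,
      b0] at this
    rw [abs_div, abs_of_pos (by linarith : 0 < gam q i), div_le_iff₀ (by linarith)] at this
    refine this.trans ?_
    rw [mul_comm]
    exact h1 i hi
  have e1 : dens (update U i {y}) = dens U / #(U i) := by
    have := dens_update U i (U i)
    rw [update_eq_self] at this
    rw [this, dens_update, card_singleton]
    generalize ∏ j ∈ univ.erase i, (#(U j) : ℝ) / (q j : ℝ) ^ 2 = P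
    push_cast
    field_simp
  have e2 : (pts s.N U).filter (fun a : ℕ => (a : Cl q i) = y) = pts s.N (update U i {y}) := by
    ext b
    simp only [pts, mem_filter]
    constructor
    · rintro ⟨⟨h1, h2⟩, h3⟩
      refine ⟨h1, fun j => ?_⟩
      by_cases hj : j = i
      · subst hj; simp [h3]
      · rw [update_of_ne hj]; exact h2 j
    · rintro ⟨h1, h2⟩
      have h3 : (b : Cl q i) = y := by simpa using h2 i
      refine ⟨⟨h1, fun j => ?_⟩, h3⟩
      by_cases hj : j = i
      · subst hj; rw [h3]; exact hy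
      · have := h2 j
        rwa [update_of_ne hj] at this
  have c1 := card_eq_dev (N := s.N) (T := update U i {y}) (by rw [e1]; positivity)
  rw [e2, c1, e1]
  have e3 : s.N * (dens U / #(U i)) * (1 + dev s.N (update U i {y})) - #(pts s.N U) / #(U i)
      = s.N * dens U / #(U i) * (dev s.N (update U i {y}) - dev s.N U) := by
    rw [c0]; ring
  rw [e3, abs_mul, abs_of_pos (by positivity)]
  have a1 : |dev s.N (update U i {y}) - dev s.N U| ≤ 2 * δ := by
    linarith [abs_sub (dev s.N (update U i {y})) (dev s.N U)]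
  calc _ ≤ s.N * dens U / #(U i) * (2 * δ) := by gcongr
    _ = 3 * δ * (s.N * dens U * (2 / 3)) / #(U i) := by ring
    _ ≤ _ := by gcongr

end

end Pool.Agent.P.MP_6da505_nt
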