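import Mathlib
import Pool.Agent.P.MP_6da505_nt.Count

/-! The shape invariant of the allowed sets, the scales, and the committing phase. -/

namespace Pool.Agent.P.MP_6da505_nt

open Finset Function

noncomputable section

set_option linter.unusedSectionVars false

variable {ι : Type} [Fintype ι] [DecidableEq ι] {q : ι → ℕ} [∀ i, NeZero (q i)]

structure Shape (j : ℕ) (C : Finset ι) (U : St q) : Prop where
  com : ∀ i ∈ C, (∀ y ∈ U i, -y ∉ U i) ∧ q i ^ 2 ≤ 4 * #(U i)
  unc : ∀ i ∉ C, (∀ y ∈ U i, -y ∈ U i) ∧ (∀ y ∈ U i, -y ≠ y) ∧ q i ^ 2 ≤ #(U i) + 1 + 2 * j ∧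
    3 ≤ q i ∧ 16 * j ≤ q i ^ 2

def CJ (q : ι → ℕ) (J : ℕ) : Finset ι := univ.filter fun i => q i ^ 2 ≤ 16 * J

def lo (q : ι → ℕ) (j0 s : ℕ) (i : ι) : ℝ :=
  if q i ^ 2 ≤ 16 * (s + j0) then 1 / 4 else 1 - (2 * s + 1) / (q i : ℝ) ^ 2

theorem Shape.dens_ge {j j0 s : ℕ} (hj0 : 1 ≤ j0) {C : Finset ι} {U : St q} (h : Shape j C U)
    (hC : C ⊆ CJ q (s + j0)) (hjs : j ≤ s) : ∏ i, lo q j0 s i ≤ dens U := by
  unfold dens
  apply prod_le_prod
  · intro i _
    unfold lo
    split_ifs with h1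
    · norm_num
    · have h2 : 2 * s + 1 ≤ q i ^ 2 := by omega
      have h3 : (2 * s + 1 : ℝ) ≤ (q i : ℝ) ^ 2 := by exact_mod_cast h2
      have := one_le_q (q := q) i
      rw [sub_nonneg, div_le_one (by positivity)]
      exact h3
  · intro i _
    have hq := one_le_q (q := q) i
    unfold lo
    split_ifs with h1
    · have h2 : q i ^ 2 ≤ 4 * #(U i) := by
        by_cases hi : i ∈ C
        · exact (h.com i hi).2
        · obtain ⟨_, _, a3, a4, a5⟩ := h.unc i hi
          have : 9 ≤ q i ^ 2 := by nlinarith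
          omega
      have h3 : (q i : ℝ) ^ 2 ≤ 4 * #(U i) := by exact_mod_cast h2
      rw [le_div_iff₀ (by positivity)]
      linarith
    · have hi : i ∉ C := fun hi => h1 (mem_filter.mp (hC hi)).2
      obtain ⟨_, _, a3, _, _⟩ := h.unc i hi
      have h2 : q i ^ 2 ≤ #(U i) + 1 + 2 * s := by omega
      have h3 : (q i : ℝ) ^ 2 ≤ #(U i) + 1 + 2 * s := by exact_mod_cast h2
      rw [le_div_iff₀ (by positivity), sub_mul, div_mul_cancel₀ _ (by positivity)]
      linarith

theorem Shape.add {j j0 : ℕ} (hj0 : 1 ≤ j0) {U : St q} (h : Shape j (CJ q (j + j0)) U) (a : ℕ) :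
    Shape (j + 1) (CJ q (j + j0)) (rem U (pr U a) (CJ q (j + j0))ᶜ) := by
  constructor
  · intro i hi
    have : rem U (pr U a) (CJ q (j + j0))ᶜ i = U i := by simp [rem, hi]
    rw [this]
    exact h.com i hi
  · intro i hi
    have e : rem U (pr U a) (CJ q (j + j0))ᶜ i = U i \ (U i ∩ {(a : Cl q i), -(a : Cl q i)}) := by
      simp [rem, hi, pr]
    obtain ⟨a1, a2, a3, a4, a5⟩ := h.unc i hi
    rw [e]
    refine ⟨?_, fun y hy => a2 y (mem_sdiff.mp hy).1, ?_, a4, ?_⟩
    · intro y hy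
      simp only [mem_sdiff, mem_inter, mem_insert, mem_singleton, not_and, not_or] at hy ⊢
      refine ⟨a1 y hy.1, fun _ => ⟨?_, ?_⟩⟩
      · intro e; exact (hy.2 hy.1).2 (by rw [← e, neg_neg])
      · intro e; exact (hy.2 hy.1).1 (neg_injective e)
    · have h1 : #(U i ∩ {(a : Cl q i), -(a : Cl q i)}) ≤ 2 :=
        (card_le_card inter_subset_right).trans card_le_two
      rw [card_sdiff_of_subset inter_subset_left]
      omega
    · have : ¬ q i ^ 2 ≤ 16 * (j + j0) := by simpa [CJ] using hi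
      omega

/-- the scale attached to a real parameter `L`. -/
def mkSc (L : ℝ) : Sc where
  N := ⌈Real.exp (176 * L)⌉₊
  Z := Real.exp (4 * L)
  E := Real.exp (84 * L)
  Θ := 2 * Real.exp L
  τ := 2 * Real.exp (-4 * L)

theorem mkSc_ok (L : ℝ) : (mkSc L).OK where
  hE := Real.exp_pos _
  hΘ := by simp only [mkSc]; positivity
  hτ0 := by simp only [mkSc]; positivity
  hτ := by
    simp only [mkSc]
    rw [← Real.exp_sub, mul_pow, ← Real.exp_nat_mul]
    have : (4 * L - 84 * L) = ((20 : ℕ) : ℝ) * (-4 * L) := by push_cast; ring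
    rw [this]
    gcongr
    norm_num

theorem mkSc_mul (L : ℝ) : (mkSc L).Θ * (mkSc L).τ = 4 * Real.exp (-3 * L) := by
  simp only [mkSc]
  rw [show -3 * L = L + -4 * L by ring, Real.exp_add]
  ring

theorem mkSc_N (L : ℝ) : ((mkSc L).E * (mkSc L).Z) ^ 2 ≤ (mkSc L).N := by
  simp only [mkSc]
  rw [← Real.exp_add, ← Real.exp_nat_mul]
  refine le_trans (le_of_eq ?_) (Nat.le_ceil _)
  congr 1
  push_cast; ring

theorem mkSc_N_pos (L : ℝ) : 0 < (mkSc L).N := Nat.ceil_pos.mpr (Real.exp_pos _)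

theorem mkSc_bdd (hcop : Pairwise (Nat.Coprime on q)) (L : ℝ) (U : St q)
    (hU : Real.exp (-L) ≤ dens U) :
    Bdd (mkSc L).Z (mkSc L).E (mkSc L).Θ (FU (mkSc L).N U) := by
  apply bdd_of_dens hcop (mkSc_N L) (Real.exp_pos (-L)) _ U hU
  simp only [mkSc]
  rw [Real.exp_neg, div_inv_eq_mul]

theorem gam_le (i : ι) : 4 * gam q i ≤ q i + 3 := by
  have h := sqrt_sqrt_pow4 (Nat.cast_nonneg (α := ℝ) (q i))
  change gam q i ^ 4 = _ at h
  rw [← h]
  nlinarith [sq_nonneg (gam q i ^ 2 - 1), sq_nonneg (gam q i - 1)]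

theorem commit_all (hcop : Pairwise (Nat.Coprime on q)) (hsum : ∑ i, 1 / (q i : ℝ) ^ 2 ≤ 1)
    {j j0 : ℕ} (hj0 : 1 ≤ j0) (S : Finset ℕ) (L t w : ℕ → ℝ)
    (hS : ∀ s ∈ S, j ≤ s ∧ 0 ≤ w s ∧ 4 * Real.exp (-3 * L s) ≤ t s ∧
      Real.exp (-L s) ≤ ∏ i, lo q j0 s i)
    (C : Finset ι) (U : St q) (hU : Shape j C U) :
    ∀ G : Finset ι, Disjoint G C → C ∪ G ⊆ CJ q (j + j0) →
      ∃ U' : St q, Shape j (C ∪ G) U' ∧ (∀ i, U' i ⊆ U i) ∧
        Psi S (fun s => mkSc (L s)) t w U'
          ≤ Real.exp (32 * Cs * ∑ i ∈ G, gam q i ^ 2 / (q i : ℝ) ^ 2)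
            * Psi S (fun s => mkSc (L s)) t w U := by
  intro G
  induction G using Finset.induction_on with
  | empty => intro _ _; exact ⟨U, by simpa using hU, fun _ => Subset.rfl, by simp⟩
  | insert i G hi ih =>
    intro hd hsub
    have hsub' : C ∪ G ⊆ CJ q (j + j0) :=
      (union_subset_union Subset.rfl (subset_insert _ _)).trans hsub
    obtain ⟨U1, u1, u2, u3⟩ := ih (disjoint_of_subset_left (subset_insert _ _) hd) hsub'
    have hiC : i ∉ C ∪ G := by
      rw [mem_union, not_or]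
      exact ⟨disjoint_left.mp hd (mem_insert_self _ _), hi⟩
    obtain ⟨a1, a2, a3, a4, a5⟩ := u1.unc i hiC
    have h9 : 9 ≤ q i ^ 2 := by nlinarith
    obtain ⟨W, w1, w2, w3, w4⟩ := commit_one hsum S (fun s => mkSc (L s)) t w U1 i (by
        intro s hs
        obtain ⟨b1, b2, b3, b4⟩ := hS s hs
        refine ⟨mkSc_ok _, b2, by rw [mkSc_mul]; exact b3, mkSc_bdd hcop _ _ ?_⟩
        refine b4.trans ((u1.dens_ge hj0 (hsub'.trans ?_) b1).trans
          (dens_mono (subset_res _ _)))
        intro k hk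
        simp only [CJ, mem_filter, mem_univ, true_and] at hk ⊢
        omega) a1 a2 (by omega) (by
        refine (gam_le i).trans ?_
        have : q i + 3 ≤ #(U1 i) := by nlinarith
        exact_mod_cast this)
    refine ⟨update U1 i W, ?_, ?_, ?_⟩
    · constructor
      · intro k hk
        by_cases hki : k = i
        · subst hki
          rw [update_self]
          exact ⟨w2, by omega⟩
        · rw [update_of_ne hki]
          apply u1.com
          simp only [mem_union, mem_insert, hki, false_or] at hk ⊢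
          exact hk
      · intro k hk
        have hki : k ≠ i := by rintro rfl; simp at hk
        rw [update_of_ne hki]
        apply u1.unc
        simp only [mem_union, mem_insert, not_or] at hk ⊢
        exact ⟨hk.1, hk.2.2⟩
    · intro k
      by_cases hki : k = i
      · subst hki; rw [update_self]; exact w1.trans (u2 k)
      · rw [update_of_ne hki]; exact u2 k
    · rw [sum_insert hi, mul_add, Real.exp_add, mul_assoc]
      exact w4.trans (mul_le_mul_of_nonneg_left u3 (Real.exp_pos _).le)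

/-- the initial allowed sets. -/
def Y0 (q : ι → ℕ) [∀ i, NeZero (q i)] : St q :=
  fun i => if q i = 2 then univ \ {1} else {0}

def U0 (q : ι → ℕ) [∀ i, NeZero (q i)] : St q := rem (fun _ => univ) (Y0 q) univ

theorem shape_init (hp : ∀ i, (q i).Prime) :
    Shape 0 (univ.filter fun i => q i = 2) (U0 q) := by
  constructor
  · intro i hi
    have h2 : q i = 2 := (mem_filter.mp hi).2
    have e : U0 q i = {1} := by simp [U0, rem, Y0, h2]
    rw [e]
    refine ⟨?_, by simp [h2]⟩
    intro y hy hy'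
    rw [mem_singleton] at hy hy'
    rw [hy] at hy'
    have h3 : ((2 : ℕ) : ZMod (q i ^ 2)) = 0 := by
      have : (1 : ZMod (q i ^ 2)) + 1 = 0 := by
        nth_rewrite 1 [← hy']; ring
      push_cast; linear_combination this
    rw [ZMod.natCast_eq_zero_iff, h2] at h3
    omega
  · intro i hi
    have h2 : q i ≠ 2 := by simpa using hi
    have e : U0 q i = univ \ {0} := by simp [U0, rem, Y0, h2]
    have h3 : 3 ≤ q i := by have := (hp i).two_le; omega
    rw [e]
    refine ⟨by simp, ?_, ?_, h3, by simp⟩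
    · intro y hy hy'
      have hy0 : y ≠ 0 := by simpa using hy
      have hu : IsUnit ((2 : ℕ) : ZMod (q i ^ 2)) := by
        rw [ZMod.isUnit_iff_coprime]
        apply Nat.Coprime.pow_right
        exact (Nat.coprime_primes Nat.prime_two (hp i)).mpr h2.symm
      apply hy0
      apply hu.mul_right_eq_zero.mp
      push_cast
      linear_combination - hy'
    · rw [card_sdiff_of_subset (subset_univ _), card_univ, ZMod.card, card_singleton]
      omega

theorem phi_init (hp : ∀ i, (q i).Prime) (hcop : Pairwise (Nat.Coprime on q))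
    (hsum : ∑ i, 1 / (q i : ℝ) ^ 2 ≤ 1) {L C0 : ℝ} (hL : 0 ≤ L) (hC0 : ∑ i, cc q i ≤ C0)
    (hd : Real.exp (-L) ≤ dens (U0 q)) :
    ‖vec (mkSc L) (res (mkSc L).Z (U0 q))‖ ≤ 6 * Real.exp (13 * C0) * Real.exp (-3 * L) := by
  have hr : res (mkSc L).Z (fun _ => univ : St q) = fun _ => univ := by
    funext i; simp [res]
  have e : res (mkSc L).Z (U0 q)
      = rem (fun _ => univ) (Y0 q) (univ.filter fun i => (q i : ℝ) ≤ (mkSc L).Z) := by
    rw [U0, res_rem, hr]
  obtain ⟨r1, -⟩ := remove_many hsum (mkSc_ok L) (fun _ => univ) (Y0 q)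
    (univ.filter fun i => (q i : ℝ) ≤ (mkSc L).Z) (fun i => 13 * cc q i) (by
      intro U' h
      apply mkSc_bdd hcop
      refine hd.trans (dens_mono fun i => (subset_res (mkSc L).Z _ i).trans ?_)
      rw [e]; exact h i) (by
      intro i hi
      have hg := one_le_gam (q := q) i
      refine ⟨(mem_filter.mp hi).2, subset_univ _, ?_⟩
      have h4 : 4 ≤ q i ^ 2 := by have := (hp i).two_le; nlinarith
      unfold Y0 cc
      rw [card_univ, ZMod.card]
      split_ifs with h2
      · rw [card_sdiff_of_subset (subset_univ _), card_univ, ZMod.card, card_singleton]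
        refine ⟨by omega, ?_⟩
        simp only [h2]
        norm_num
        linarith
      · rw [card_singleton]
        refine ⟨by omega, ?_⟩
        have h4' : (4 : ℝ) ≤ (q i : ℝ) ^ 2 := by exact_mod_cast h4
        push_cast
        rw [← mul_div_assoc, div_le_div_iff₀ (by linarith) (by linarith)]
        nlinarith) _ Subset.rfl
  rw [← e] at r1
  have h1 := vec_init hcop hsum (mkSc L) (mkSc_N_pos L)
  have h2 : (mkSc L).E ^ 2 / (mkSc L).N ≤ Real.exp (-3 * L) := by
    have hN : (0 : ℝ) < (mkSc L).N := by exact_mod_cast mkSc_N_pos L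
    rw [div_le_iff₀ hN]
    refine le_trans ?_ (mul_le_mul_of_nonneg_left (mkSc_N L) (Real.exp_pos _).le)
    simp only [mkSc]
    rw [← Real.exp_add, ← Real.exp_nat_mul, ← Real.exp_nat_mul, ← Real.exp_add]
    apply Real.exp_le_exp.mpr
    push_cast
    linarith
  rw [mkSc_mul] at r1
  have h3 : Real.exp (∑ i ∈ univ.filter fun i => (q i : ℝ) ≤ (mkSc L).Z, 13 * cc q i)
      ≤ Real.exp (13 * C0) := by
    apply Real.exp_le_exp.mpr
    rw [← mul_sum]
    gcongr
    exact (sum_le_sum_of_subset_of_nonneg (filter_subset _ _) fun i _ _ => cc_nonneg i).trans hC0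
  have h4 := norm_add_le (vec (mkSc L) (res (mkSc L).Z (U0 q)) - vec (mkSc L) fun _ => univ)
    (vec (mkSc L) (fun _ => univ : St q))
  rw [sub_add_cancel] at h4
  have h5 : (‖vec (mkSc L) (fun _ => univ : St q)‖ + 4 * Real.exp (-3 * L))
      * Real.exp (∑ i ∈ univ.filter fun i => (q i : ℝ) ≤ (mkSc L).Z, 13 * cc q i)
      ≤ (6 * Real.exp (-3 * L)) * Real.exp (13 * C0) := by
    gcongr
    linarith
  have := Real.exp_pos (-3 * L)
  linarith

end

end Pool.Agent.P.MP_6da505_nt
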