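import Mathlib
import Pool.Agent.P.MP_6da505_nt.Shape

/-! The greedy process. -/

namespace Pool.Agent.P.MP_6da505_nt

open Finset Function

noncomputable section

set_option linter.unusedSectionVars false

open Classical in
theorem bad_shift {N c : ℕ} {Z : ℝ} (hc : c ≤ N) (hZ : 1 ≤ Z) (hN : Z ^ 2 ≤ N) :
    (#((range N).filter fun b => 0 < b ∧ ∃ p : ℕ, Z < p ∧ p ^ 2 ∣ b + c) : ℝ) ≤ 4 * N / Z := by
  set R := Nat.sqrt (2 * N) with hR
  have hsub : ((range N).filter fun b => 0 < b ∧ ∃ p : ℕ, Z < p ∧ p ^ 2 ∣ b + c)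
      ⊆ (Ioo ⌊Z⌋₊ (R + 1)).biUnion
        fun m => (range N).filter fun b => b ≡ (m ^ 2 - 1) * c [MOD m ^ 2] := by
    intro b hb
    obtain ⟨h1, h2, p, h3, h4⟩ := mem_filter.mp hb
    have h1' := mem_range.mp h1
    have h5 : p ^ 2 ≤ 2 * N := (Nat.le_of_dvd (by omega) h4).trans (by omega)
    have hp : 0 < p := by
      have : (0 : ℝ) < p := by linarith
      exact_mod_cast this
    refine mem_biUnion.mpr ⟨p, mem_Ioo.mpr ⟨?_, ?_⟩, mem_filter.mpr ⟨h1, ?_⟩⟩
    · exact (Nat.floor_lt (by linarith)).mpr h3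
    · exact Nat.lt_succ_of_le (Nat.le_sqrt'.mpr h5)
    · apply Nat.ModEq.add_right_cancel' c
      have e : (p ^ 2 - 1) * c + c = p ^ 2 * c := by
        have : 1 ≤ p ^ 2 := Nat.one_le_pow _ _ hp
        calc (p ^ 2 - 1) * c + c = (p ^ 2 - 1 + 1) * c := by ring
          _ = _ := by rw [Nat.sub_add_cancel this]
      rw [e]
      exact ((Nat.modEq_zero_iff_dvd).mpr h4).trans
        ((Nat.modEq_zero_iff_dvd).mpr (dvd_mul_right _ _)).symm
  have h1 : (#((range N).filter fun b => 0 < b ∧ ∃ p : ℕ, Z < p ∧ p ^ 2 ∣ b + c) : ℝ)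
      ≤ ∑ m ∈ Ioo ⌊Z⌋₊ (R + 1), (N * ((m : ℝ) ^ 2)⁻¹ + 1) := by
    have := (card_le_card hsub).trans card_biUnion_le
    refine le_trans (Nat.cast_le.mpr this) ?_
    rw [Nat.cast_sum]
    refine sum_le_sum fun m hm => ?_
    have hm0 : 0 < m := by have := (mem_Ioo.mp hm).1; omega
    have := (abs_le.mp (count_mod N (m ^ 2) ((m ^ 2 - 1) * c) (pow_pos hm0 2))).2
    push_cast at this
    rw [← div_eq_mul_inv]
    linarith
  rw [sum_add_distrib, ← mul_sum, sum_const, nsmul_eq_mul, mul_one] at h1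
  have h2 : ∑ m ∈ Ioo ⌊Z⌋₊ (R + 1), ((m : ℝ) ^ 2)⁻¹ ≤ 2 / Z := by
    refine (sum_Ioo_inv_sq_le _ _).trans ?_
    have := Nat.lt_floor_add_one Z
    gcongr
  have h3 : (#(Ioo ⌊Z⌋₊ (R + 1)) : ℝ) ≤ R := by
    rw [Nat.card_Ioo]
    have : R + 1 - ⌊Z⌋₊ - 1 ≤ R := by omega
    exact_mod_cast this
  have h4 : (R : ℝ) ≤ 2 * N / Z := by
    rw [le_div_iff₀ (by linarith)]
    have h5 : (R : ℝ) ^ 2 ≤ 2 * N := by exact_mod_cast Nat.sqrt_le' (2 * N)
    apply le_of_pow_le_pow_left₀ two_ne_zero (by positivity)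
    have hN0 : (0 : ℝ) ≤ N := Nat.cast_nonneg _
    calc ((R : ℝ) * Z) ^ 2 = (R : ℝ) ^ 2 * Z ^ 2 := by ring
      _ ≤ (2 * (N : ℝ)) * N := by gcongr
      _ ≤ (2 * (N : ℝ)) ^ 2 := by nlinarith
  have h6 : (N : ℝ) * ∑ m ∈ Ioo ⌊Z⌋₊ (R + 1), ((m : ℝ) ^ 2)⁻¹ ≤ N * (2 / Z) := by gcongr
  have e : 4 * (N : ℝ) / Z = N * (2 / Z) + 2 * N / Z := by ring
  linarith

variable {ι : Type} [Fintype ι] [DecidableEq ι] {q : ι → ℕ} [∀ i, NeZero (q i)]

structure Par (q : ι → ℕ) (n j0 : ℕ) (L η : ℕ → ℝ) (C0 : ℝ) : Prop where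
  prime : ∀ i, (q i).Prime
  inj : Injective q
  all : ∀ j < n, ∀ p : ℕ, p.Prime → (p : ℝ) ≤ Real.exp (4 * L j) → ∃ i, q i = p
  hsum : ∑ i, 1 / (q i : ℝ) ^ 2 ≤ 1
  hj0 : 2 ≤ j0
  mono : Monotone L
  L0 : ∀ j, 1 ≤ L j
  hρ : ∀ s < n, Real.exp (-L s) ≤ ∏ i, lo q j0 s i
  hC0 : ∑ i, cc q i ≤ C0
  hC1 : ∑ i, gam q i ^ 2 / (q i : ℝ) ^ 2 ≤ C0
  hinit : ∀ s < n, ((6 * Real.exp (13 * C0)) ^ 20 + (4 * ((s + j0 : ℕ) : ℝ)) ^ 20)
    * ((s + j0 : ℕ) : ℝ) ^ 2 ≤ Real.exp (10 * L s)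
  hg : ∀ j < n, 32 * Cs * C0 + ∑ k ∈ range j, (Ca + 2) * η k ^ 2 ≤ 10 * L j
  η0 : ∀ j < n, 0 < η j
  η1 : ∀ j < n, η j ≤ 1 / 4
  η2 : ∀ j < n, ∑ i ∈ (CJ q (j + j0))ᶜ, cc q i ≤ η j
  η3 : ∀ j < n, ∑ i ∈ univ.filter (fun i => ¬ (q i : ℝ) ≤ Real.exp (4 * L j)), cc q i ≤ η j ^ 2
  η4 : ∀ j < n, 3 * Real.exp (-L j) ≤ η j
  η5 : ∀ j < n, 10 * (j + 1) * Real.exp (-3 * L j) ≤ η j ^ 2
  η6 : ∀ j < n, 1 ≤ η j * ((j + j0 : ℕ) : ℝ)
  η7 : ∀ j < n, 16 * ((j + j0 : ℕ) : ℝ) ≤ Real.exp (L j)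

theorem Par.cop {n j0 : ℕ} {L η : ℕ → ℝ} {C0 : ℝ} (P : Par q n j0 L η C0) :
    Pairwise (Nat.Coprime on q) := fun i j hij =>
  (Nat.coprime_primes (P.prime i) (P.prime j)).mpr fun h => hij (P.inj h)

def tt (j0 : ℕ) (L : ℕ → ℝ) (s : ℕ) : ℝ := ((s + j0 : ℕ) : ℝ) * (4 * Real.exp (-3 * L s))

def ww (L : ℕ → ℝ) (s : ℕ) : ℝ := Real.exp (50 * L s)

def PP (n j0 : ℕ) (L : ℕ → ℝ) (j : ℕ) (U : St q) : ℝ :=
  Psi (Ico j n) (fun s => mkSc (L s)) (tt j0 L) (ww L) U

theorem PP_nonneg (n j0 : ℕ) (L : ℕ → ℝ) (j : ℕ) (U : St q) : 0 ≤ PP n j0 L j U := by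
  unfold PP Psi
  exact sum_nonneg fun s _ => mul_nonneg (Real.exp_pos _).le (Phi_nonneg _ _ _)

structure Elts (L : ℕ → ℝ) (j : ℕ) (U : St q) (a : ℕ → ℕ) : Prop where
  lt : ∀ k < j, a k < (mkSc (L k)).N
  sq : ∀ k < j, ∀ l < j, Squarefree (a k + a l)
  inj : ∀ k < j, ∀ l < j, a k = a l → k = l
  avoid : ∀ k < j, ∀ i, -(a k : Cl q i) ∉ U i

theorem add_step {n j0 : ℕ} {L η : ℕ → ℝ} {C0 : ℝ} (P : Par q n j0 L η C0) {j : ℕ} (hj : j < n)
    (U : St q) (a : ℕ → ℕ) (hS : Shape j (CJ q (j + j0)) U) (hE : Elts L j U a) {g : ℝ}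
    (hP : PP n j0 L j U ≤ Real.exp g) (hg : g ≤ 10 * L j) :
    ∃ b : ℕ, Elts L (j + 1) (rem U (pr U b) (CJ q (j + j0))ᶜ) (update a j b) ∧
      PP n j0 L (j + 1) (rem U (pr U b) (CJ q (j + j0))ᶜ) ≤ Real.exp (g + (Ca + 2) * η j ^ 2) := by
  classical
  have hj0 : 1 ≤ j0 := by have := P.hj0; omega
  have hL := P.L0 j
  have hη0 := P.η0 j hj
  have hη1 := P.η1 j hj
  have hw : ∀ s, 0 ≤ ww L s := fun s => (Real.exp_pos _).le
  set s0 := mkSc (L j) with hs0
  set U1 := res s0.Z U with hU1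
  have hdens : Real.exp (-L j) ≤ dens U1 :=
    (P.hρ j hj).trans ((hS.dens_ge hj0 Subset.rfl le_rfl).trans (dens_mono (subset_res _ _)))
  have hsplit : PP n j0 L j U = ww L j * Phi s0 (tt j0 L j) U + PP n j0 L (j + 1) U := by
    unfold PP Psi
    rw [sum_eq_sum_Ico_succ_bot hj]
  have hPP0 : 0 ≤ PP n j0 L (j + 1) U := PP_nonneg _ _ _ _ _
  have hPP1 : PP n j0 L (j + 1) U ≤ Real.exp g := by
    have := mul_nonneg (hw j) (Phi_nonneg s0 (tt j0 L j) U)
    linarith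
  have hx : ‖vec s0 U1‖ ≤ Real.exp (-2 * L j) := by
    apply le_of_pow_le_pow_left₀ (by norm_num : 20 ≠ 0) (Real.exp_pos _).le
    have h1 : ww L j * ‖vec s0 U1‖ ^ 20 ≤ Real.exp (10 * L j) := by
      have h2 : ‖vec s0 U1‖ ^ 20 ≤ Phi s0 (tt j0 L j) U := by
        unfold Phi
        have : 0 ≤ tt j0 L j ^ 20 := by positivity
        linarith
      have h3 := mul_le_mul_of_nonneg_left h2 (hw j)
      have h4 := Real.exp_le_exp.mpr hg
      linarith
    unfold ww at h1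
    rw [← le_div_iff₀' (Real.exp_pos _), ← Real.exp_sub] at h1
    rw [← Real.exp_nat_mul]
    refine h1.trans (le_of_eq ?_)
    congr 1; push_cast; ring
  obtain ⟨hB1, hB2⟩ := sample s0 U1 (δ := η j / 3) (mkSc_N_pos _)
    ((Real.exp_pos _).trans_le hdens) (Real.one_le_exp (by linarith))
    (Real.exp_le_exp.mpr (by linarith)) (by linarith) (by
      have h1 : Real.exp (-2 * L j) ≤ Real.exp (-L j) := Real.exp_le_exp.mpr (by linarith)
      linarith [P.η4 j hj]) (by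
      intro i hi
      have h1 : gam q i ≤ Real.exp (L j) := by
        unfold gam
        rw [Real.sqrt_le_left (Real.exp_pos _).le, Real.sqrt_le_left (by positivity),
          ← Real.exp_nat_mul, ← Real.exp_nat_mul]
        refine hi.trans (le_of_eq ?_)
        simp only [hs0, mkSc]
        congr 1; push_cast; ring
      have h2 : gam q i * ‖vec s0 U1‖ ≤ Real.exp (L j) * Real.exp (-2 * L j) := by gcongr
      rw [← Real.exp_add, show L j + -2 * L j = -L j by ring] at h2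
      linarith [P.η4 j hj])
  set B := pts s0.N U1 with hB
  have hN0 : (0 : ℝ) < s0.N := by exact_mod_cast mkSc_N_pos (L j)
  have hBl : s0.N * Real.exp (-L j) / 2 ≤ #B := le_trans (by gcongr) hB1
  have hB0 : (0 : ℝ) < #B := lt_of_lt_of_le (by positivity) hBl
  have hBne : B.Nonempty := by rw [← card_pos]; exact_mod_cast hB0
  have hmem : ∀ i, (q i : ℝ) ≤ s0.Z → ∀ b ∈ B, (b : Cl q i) ∈ U i := by
    intro i hi b hb
    have := (mem_filter.mp hb).2 i
    simpa [hU1, res, hi] using this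
  set G0 := (CJ q (j + j0))ᶜ with hG0
  have hG0' : ∀ i ∈ G0, i ∉ CJ q (j + j0) := fun i hi => mem_compl.mp hi
  -- expected potential
  have hexp : ∑ b ∈ B, PP n j0 L (j + 1) (rem U (pr U b) G0)
      ≤ #B * ((1 + Ca * η j ^ 2) * PP n j0 L (j + 1) U) := by
    unfold PP Psi
    rw [sum_comm, mul_sum, mul_sum]
    apply sum_le_sum
    intro s hs
    obtain ⟨hs1, hs2⟩ := mem_Ico.mp hs
    rw [← mul_sum]
    have := add_one_scale P.hsum (mkSc_ok (L s)) (t := tt j0 L s) (η := η j)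
      (ρ := Real.exp (-L s)) (Z0 := s0.Z) U G0 B hBne hη0 hη1
      (by unfold tt; positivity) (by
        rw [mkSc_mul]; unfold tt
        have h1 : ((j + j0 : ℕ) : ℝ) ≤ ((s + j0 : ℕ) : ℝ) := by exact_mod_cast (by omega)
        have h2 : 1 ≤ η j * ((s + j0 : ℕ) : ℝ) := (P.η6 j hj).trans (by gcongr)
        rw [← mul_assoc]
        exact le_mul_of_one_le_left (by positivity) h2)
      (fun U' h => mkSc_bdd P.cop _ U' h) (by
        intro b
        refine (P.hρ s hs2).trans ((hS.add hj0 b).dens_ge hj0 ?_ hs1)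
        intro k hk
        simp only [CJ, mem_filter, mem_univ, true_and] at hk ⊢
        omega) (by
        intro i hi
        obtain ⟨a1, a2, a3, a4, a5⟩ := hS.unc i (hG0' i hi)
        refine ⟨a1, a2, ?_⟩
        have : ¬ q i ^ 2 ≤ 16 * (j + j0) := by simpa [CJ] using hG0' i hi
        omega) (P.η2 j hj) (le_trans (sum_le_sum_of_subset_of_nonneg
          (filter_subset_filter _ (subset_univ _)) fun i _ _ => cc_nonneg i) (P.η3 j hj)) hmem (by
        intro i _ hi y hy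
        have e : U1 i = U i := by simp [hU1, res, hi]
        have := hB2 i hi y (e ▸ hy)
        rw [e] at this
        refine this.trans (le_of_eq ?_)
        ring)
    calc _ ≤ ww L s * (#B * ((1 + Ca * η j ^ 2) * Phi (mkSc (L s)) (tt j0 L s) U)) :=
          mul_le_mul_of_nonneg_left this (hw s)
      _ = _ := by ring
  -- bad elements
  let T : Finset ℕ := insert 0 ((range j).image a)
  have hTc : (#T : ℝ) ≤ j + 1 := by
    have : #T ≤ j + 1 :=
      (card_insert_le _ _).trans (by simpa using card_image_le (s := range j) (f := a))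
    exact_mod_cast this
  have hZ1 : 1 ≤ s0.Z := Real.one_le_exp (by linarith)
  have hZN : s0.Z ^ 2 ≤ s0.N := by
    refine le_trans ?_ (mkSc_N (L j))
    have h1 : 1 ≤ s0.E := Real.one_le_exp (by linarith)
    gcongr
    exact le_mul_of_one_le_left (by linarith) h1
  have hTN : ∀ c ∈ T, c ≤ s0.N := by
    intro c hc
    rcases mem_insert.mp hc with rfl | hc
    · exact Nat.zero_le _
    · obtain ⟨k, hk, rfl⟩ := mem_image.mp hc
      have hk := mem_range.mp hk
      refine (hE.lt k hk).le.trans (Nat.ceil_mono (Real.exp_le_exp.mpr ?_))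
      have := P.mono hk.le
      linarith
  let Bad : Finset ℕ := T ∪ T.biUnion fun c =>
    (range s0.N).filter fun b => 0 < b ∧ ∃ p : ℕ, s0.Z < p ∧ p ^ 2 ∣ b + c
  have hBad : (#Bad : ℝ) ≤ η j ^ 2 * #B := by
    have h1 : (#Bad : ℝ) ≤ #T + ∑ c ∈ T, 4 * (s0.N : ℝ) / s0.Z := by
      have : #Bad ≤ #T + _ := (card_union_le T _).trans (Nat.add_le_add_left card_biUnion_le _)
      refine le_trans (Nat.cast_le.mpr this) ?_
      rw [Nat.cast_add, Nat.cast_sum]
      refine add_le_add_right ?_ _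
      exact sum_le_sum fun c hc => bad_shift (hTN c hc) hZ1 hZN
    rw [sum_const, nsmul_eq_mul] at h1
    have h2 : 1 ≤ (s0.N : ℝ) / s0.Z := by
      rw [le_div_iff₀ (by linarith)]; nlinarith
    have h3 : (#Bad : ℝ) ≤ (j + 1) * (5 * (s0.N / s0.Z)) := by
      calc _ ≤ #T * (1 + 4 * (s0.N / s0.Z)) := by rw [← mul_div_assoc]; linarith
        _ ≤ _ := by gcongr; linarith
    have h4 : (s0.N : ℝ) / s0.Z = s0.N * Real.exp (-L j) * Real.exp (-3 * L j) := by
      simp only [hs0, mkSc]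
      rw [mul_assoc, ← Real.exp_add, div_eq_mul_inv, ← Real.exp_neg]
      congr 2; ring
    calc _ ≤ (10 * (j + 1) * Real.exp (-3 * L j)) * (s0.N * Real.exp (-L j) / 2) := by
          rw [h4] at h3; linarith
      _ ≤ _ := by
          have := P.η5 j hj
          gcongr
  have hgood : (1 - η j ^ 2) * #B ≤ #(B \ Bad) := by
    have : #B ≤ #(B \ Bad) + #Bad := card_le_card_sdiff_add_card
    have h2 : (#B : ℝ) ≤ #(B \ Bad) + #Bad := by exact_mod_cast this
    linarith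
  have hη2 : η j ^ 2 ≤ 1 / 16 := by nlinarith
  have hgood0 : (0 : ℝ) < #(B \ Bad) := lt_of_lt_of_le (mul_pos (by linarith) hB0) hgood
  have hne : (B \ Bad).Nonempty := by rw [← card_pos]; exact_mod_cast hgood0
  obtain ⟨b, hb, hbP⟩ : ∃ b ∈ B \ Bad, PP n j0 L (j + 1) (rem U (pr U b) G0)
      ≤ Real.exp (g + (Ca + 2) * η j ^ 2) := by
    apply exists_le_of_sum_le hne
    rw [sum_const, nsmul_eq_mul]
    have h1 : ∑ b ∈ B \ Bad, PP n j0 L (j + 1) (rem U (pr U b) G0)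
        ≤ ∑ b ∈ B, PP n j0 L (j + 1) (rem U (pr U b) G0) :=
      sum_le_sum_of_subset_of_nonneg sdiff_subset fun b _ _ => PP_nonneg _ _ _ _ _
    have hCa := Ca_pos
    have h2 : 1 + Ca * η j ^ 2 ≤ Real.exp (Ca * η j ^ 2) := by
      linarith [Real.add_one_le_exp (Ca * η j ^ 2)]
    have h3 : 1 ≤ (1 - η j ^ 2) * Real.exp (2 * η j ^ 2) := by
      have := Real.add_one_le_exp (2 * η j ^ 2)
      have h4 : (1 - η j ^ 2) * (2 * η j ^ 2 + 1) ≤ (1 - η j ^ 2) * Real.exp (2 * η j ^ 2) :=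
        mul_le_mul_of_nonneg_left this (by linarith)
      nlinarith [sq_nonneg (η j)]
    calc _ ≤ #B * ((1 + Ca * η j ^ 2) * PP n j0 L (j + 1) U) := h1.trans hexp
      _ ≤ #B * (Real.exp (Ca * η j ^ 2) * Real.exp g) := by gcongr
      _ ≤ #B * (Real.exp (Ca * η j ^ 2) * Real.exp g)
          * ((1 - η j ^ 2) * Real.exp (2 * η j ^ 2)) :=
          le_mul_of_one_le_right (by positivity) h3
      _ = ((1 - η j ^ 2) * #B) * Real.exp (g + (Ca + 2) * η j ^ 2) := by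
          rw [show g + (Ca + 2) * η j ^ 2 = Ca * η j ^ 2 + g + 2 * η j ^ 2 by ring, Real.exp_add,
            Real.exp_add]
          ring
      _ ≤ _ := by gcongr
  refine ⟨b, ?_, hbP⟩
  obtain ⟨hbB, hbBad⟩ := mem_sdiff.mp hb
  have hbN : b < s0.N := mem_range.mp (mem_filter.mp hbB).1
  have hbT : b ∉ T := fun h => hbBad (mem_union_left _ h)
  have hb0 : 0 < b := Nat.pos_of_ne_zero fun h => hbT (h ▸ mem_insert_self _ _)
  have hbig : ∀ c ∈ T, ∀ p : ℕ, s0.Z < p → ¬ p ^ 2 ∣ b + c := fun c hc p h1 h2 =>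
    hbBad (mem_union_right _ (mem_biUnion.mpr ⟨c, hc, mem_filter.mpr
      ⟨mem_range.mpr hbN, hb0, p, h1, h2⟩⟩))
  have haT : ∀ k < j, a k ∈ T := fun k hk =>
    mem_insert_of_mem (mem_image_of_mem _ (mem_range.mpr hk))
  have hsq1 : ∀ k < j, Squarefree (b + a k) := by
    intro k hk
    rw [Nat.squarefree_iff_prime_squarefree]
    intro p hp hd
    rw [← sq] at hd
    by_cases hz : (p : ℝ) ≤ s0.Z
    · obtain ⟨i, rfl⟩ := P.all j hj p hp hz
      apply hE.avoid k hk i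
      have h1 := (ZMod.natCast_eq_zero_iff _ _).mpr hd
      push_cast at h1
      have : -(a k : Cl q i) = (b : Cl q i) := by linear_combination - h1
      rw [this]
      exact hmem i hz b hbB
    · exact hbig _ (haT k hk) p (not_le.mp hz) hd
  have hsq2 : Squarefree (b + b) := by
    rw [Nat.squarefree_iff_prime_squarefree]
    intro p hp hd
    rw [← sq] at hd
    by_cases hz : (p : ℝ) ≤ s0.Z
    · obtain ⟨i, rfl⟩ := P.all j hj p hp hz
      have h1 := (ZMod.natCast_eq_zero_iff _ _).mpr hd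
      push_cast at h1
      have h2 : -(b : Cl q i) = (b : Cl q i) := by linear_combination - h1
      have h3 := hmem i hz b hbB
      by_cases hi : i ∈ CJ q (j + j0)
      · exact (hS.com i hi).1 _ h3 (h2.symm ▸ h3)
      · exact (hS.unc i hi).2.1 _ h3 h2
    · apply hbig 0 (mem_insert_self _ _) p (not_le.mp hz)
      have hp2 : p ≠ 2 := by
        rintro rfl
        apply hz
        have := Real.add_one_le_exp (4 * L j)
        simp only [hs0, mkSc]
        push_cast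
        linarith
      rw [← two_mul] at hd
      exact (Nat.Coprime.pow_left 2
        ((Nat.coprime_primes hp Nat.prime_two).mpr hp2)).dvd_of_dvd_mul_left hd
  have hup : ∀ k < j, update a j b k = a k := fun k hk => update_of_ne hk.ne _ _
  constructor
  · intro k hk
    rcases Nat.lt_succ_iff_lt_or_eq.mp hk with hk | rfl
    · rw [hup k hk]; exact hE.lt k hk
    · rw [update_self]; exact hbN
  · intro k hk l hl
    rcases Nat.lt_succ_iff_lt_or_eq.mp hk with hk | rfl <;>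
      rcases Nat.lt_succ_iff_lt_or_eq.mp hl with hl | rfl
    · rw [hup k hk, hup l hl]; exact hE.sq k hk l hl
    · rw [hup k hk, update_self, add_comm]; exact hsq1 k hk
    · rw [hup l hl, update_self]; exact hsq1 l hl
    · rw [update_self]; exact hsq2
  · intro k hk l hl
    rcases Nat.lt_succ_iff_lt_or_eq.mp hk with hk | rfl <;>
      rcases Nat.lt_succ_iff_lt_or_eq.mp hl with hl | rfl
    · rw [hup k hk, hup l hl]; exact hE.inj k hk l hl
    · rw [hup k hk, update_self]; exact fun h => absurd (h ▸ haT k hk) hbT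
    · rw [hup l hl, update_self]; exact fun h => absurd (h ▸ haT l hl) hbT
    · exact fun _ => rfl
  · intro k hk i
    have hsub : rem U (pr U b) G0 i ⊆ U i := by
      have := rem_subset U (pr U b) (empty_subset G0) i
      simpa [rem] using this
    rcases Nat.lt_succ_iff_lt_or_eq.mp hk with hk | rfl
    · rw [hup k hk]; exact fun h => hE.avoid k hk i (hsub h)
    · rw [update_self]
      by_cases hi : i ∈ CJ q (k + j0)
      · refine fun h => (hS.com i hi).1 _ (hmem i ?_ b hbB) (hsub h)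
        have h1 : q i ^ 2 ≤ 16 * (k + j0) := (mem_filter.mp hi).2
        have h2 : (q i : ℝ) ^ 2 ≤ 16 * ((k + j0 : ℕ) : ℝ) := by exact_mod_cast h1
        have h3 := one_le_q (q := q) i
        have h4 := P.η7 k hj
        have h5 : Real.exp (L k) ≤ Real.exp (4 * L k) := Real.exp_le_exp.mpr (by linarith)
        simp only [hs0, mkSc]
        nlinarith
      · have : i ∈ G0 := mem_compl.mpr hi
        simp [rem, pr, this]

theorem psi_init {n j0 : ℕ} {L η : ℕ → ℝ} {C0 : ℝ} (P : Par q n j0 L η C0) :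
    PP n j0 L 0 (U0 q) ≤ 1 := by
  have hj0 := P.hj0
  have key : ∀ s ∈ Ico 0 n, ww L s * Phi (mkSc (L s)) (tt j0 L s) (U0 q)
      ≤ (((s + j0 : ℕ) : ℝ) ^ 2)⁻¹ := by
    intro s hs
    have hs := (mem_Ico.mp hs).2
    have hd : Real.exp (-L s) ≤ dens (U0 q) := by
      refine (P.hρ s hs).trans ((shape_init P.prime).dens_ge (by omega) ?_ (Nat.zero_le _))
      intro i hi
      simp only [CJ, mem_filter, mem_univ, true_and] at hi ⊢
      rw [hi]; omega
    have h1 := phi_init P.prime P.cop P.hsum (by linarith [P.L0 s]) P.hC0 hd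
    have h2 : Phi (mkSc (L s)) (tt j0 L s) (U0 q)
        ≤ ((6 * Real.exp (13 * C0)) ^ 20 + (4 * ((s + j0 : ℕ) : ℝ)) ^ 20)
          * Real.exp (-3 * L s) ^ 20 := by
      unfold Phi tt
      rw [add_mul, ← mul_pow, ← mul_pow]
      apply add_le_add
      · gcongr
      · apply le_of_eq; ring
    have hJ : (0 : ℝ) < ((s + j0 : ℕ) : ℝ) := by exact_mod_cast (by omega)
    have h3 := P.hinit s hs
    rw [← le_div_iff₀ (by positivity)] at h3
    unfold ww
    calc _ ≤ Real.exp (50 * L s) * (Real.exp (10 * L s) / ((s + j0 : ℕ) : ℝ) ^ 2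
          * Real.exp (-3 * L s) ^ 20) := by
          apply mul_le_mul_of_nonneg_left _ (Real.exp_pos _).le
          exact h2.trans (by gcongr)
      _ = (Real.exp (50 * L s) * Real.exp (10 * L s) * Real.exp (-3 * L s) ^ 20)
          * (((s + j0 : ℕ) : ℝ) ^ 2)⁻¹ := by ring
      _ = _ := by
          rw [← Real.exp_nat_mul, ← Real.exp_add, ← Real.exp_add]
          have : 50 * L s + 10 * L s + ((20 : ℕ) : ℝ) * (-3 * L s) = 0 := by push_cast; ring
          rw [this, Real.exp_zero, one_mul]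
  unfold PP Psi
  refine (sum_le_sum key).trans ?_
  rw [sum_Ico_add' (fun m : ℕ => ((m : ℝ) ^ 2)⁻¹) 0 n j0]
  have h := sum_Ioo_inv_sq_le (α := ℝ) 1 (n + j0)
  refine le_trans (sum_le_sum_of_subset_of_nonneg ?_ fun i _ _ => by positivity)
    (h.trans (by norm_num))
  intro m hm
  simp only [mem_Ico, mem_Ioo] at hm ⊢
  omega

theorem process {n j0 : ℕ} {L η : ℕ → ℝ} {C0 : ℝ} (P : Par q n j0 L η C0) :
    ∀ j ≤ n, ∃ (C : Finset ι) (U : St q) (a : ℕ → ℕ), Shape j C U ∧ C ⊆ CJ q (j + j0) ∧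
      Elts L j U a ∧ PP n j0 L j U ≤ Real.exp (32 * Cs * ∑ i ∈ C, gam q i ^ 2 / (q i : ℝ) ^ 2
        + ∑ k ∈ range j, (Ca + 2) * η k ^ 2) := by
  have hj0 := P.hj0
  have hCs := Cs_pos
  intro j
  induction j with
  | zero =>
    intro _
    refine ⟨_, U0 q, fun _ => 0, shape_init P.prime, ?_, ⟨by simp, by simp, by simp, by simp⟩, ?_⟩
    · intro i hi
      simp only [CJ, mem_filter, mem_univ, true_and] at hi ⊢
      rw [hi]; omega
    · refine (psi_init P).trans (Real.one_le_exp ?_)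
      rw [sum_range_zero, add_zero]
      positivity
  | succ j ih =>
    intro hj
    obtain ⟨C, U, a, h1, h2, h3, h4⟩ := ih (by omega)
    obtain ⟨U', u1, u2, u3⟩ := commit_all P.cop P.hsum (j := j) (j0 := j0) (by omega) (Ico j n) L
      (tt j0 L) (ww L) (by
        intro s hs
        obtain ⟨hs1, hs2⟩ := mem_Ico.mp hs
        refine ⟨hs1, (Real.exp_pos _).le, ?_, P.hρ s hs2⟩
        unfold tt
        have : (1 : ℝ) ≤ ((s + j0 : ℕ) : ℝ) := by exact_mod_cast (by omega)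
        exact le_mul_of_one_le_left (by positivity) this) C U h1 (CJ q (j + j0) \ C)
        sdiff_disjoint (by rw [union_sdiff_of_subset h2])
    rw [union_sdiff_of_subset h2] at u1
    have h5 : PP n j0 L j U' ≤ Real.exp (32 * Cs * ∑ i ∈ CJ q (j + j0), gam q i ^ 2 / (q i : ℝ) ^ 2
        + ∑ k ∈ range j, (Ca + 2) * η k ^ 2) := by
      refine u3.trans ((mul_le_mul_of_nonneg_left h4 (Real.exp_pos _).le).trans (le_of_eq ?_))
      rw [← Real.exp_add, ← sum_sdiff h2]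
      congr 1; ring
    obtain ⟨b, b1, b2⟩ := add_step P (by omega : j < n) U' a u1
      ⟨h3.lt, h3.sq, h3.inj, fun k hk i h => h3.avoid k hk i (u2 i h)⟩ h5 (by
        refine le_trans ?_ (P.hg j (by omega))
        gcongr
        exact (sum_le_sum_of_subset_of_nonneg (subset_univ _) fun i _ _ => by positivity).trans
          P.hC1)
    refine ⟨CJ q (j + j0), _, _, u1.add (by omega) b, ?_, b1, ?_⟩
    · intro k hk
      simp only [CJ, mem_filter, mem_univ, true_and] at hk ⊢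
      omega
    · rw [sum_range_succ, ← add_assoc]; exact b2

theorem finite_seq {n j0 : ℕ} {L η : ℕ → ℝ} {C0 : ℝ} (P : Par q n j0 L η C0) :
    ∃ a : ℕ → ℕ, (∀ k < n, a k < ⌈Real.exp (176 * L k)⌉₊) ∧
      (∀ k < n, ∀ l < n, Squarefree (a k + a l)) ∧ ∀ k < n, ∀ l < n, a k = a l → k = l := by
  obtain ⟨C, U, a, -, -, h, -⟩ := process P n le_rfl
  exact ⟨a, h.lt, h.sq, h.inj⟩

end

end Pool.Agent.P.MP_6da505_nt
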