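import Mathlib
import Pool.Agent.P.MP_6da505_nt.Process

/-! Sums over primes and the density bound. -/

namespace Pool.Agent.P.MP_6da505_nt

open Finset Function

noncomputable section

set_option linter.unusedSectionVars false

theorem dyadic : ∀ (k : ℕ) (x : ℝ) (T : Finset ℕ), 0 < x →
    (∀ p ∈ T, p.Prime ∧ x < p ∧ (p : ℝ) ≤ 2 ^ k * x) →
    ∑ p ∈ T, Real.log p / (p : ℝ) ^ 2 ≤ 6 / x := by
  intro k
  induction k with
  | zero =>
    intro x T hx h
    have : T = ∅ := by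
      rw [eq_empty_iff_forall_notMem]
      intro p hp
      have := h p hp
      simp only [pow_zero, one_mul] at this
      linarith [this.2.1, this.2.2]
    rw [this, sum_empty]; positivity
  | succ k ih =>
    intro x T hx h
    rw [← sum_filter_add_sum_filter_not T fun p : ℕ => (p : ℝ) ≤ 2 * x]
    have h2 := ih (2 * x) (T.filter fun p : ℕ => ¬ (p : ℝ) ≤ 2 * x) (by positivity) (by
      intro p hp
      obtain ⟨h1, h2⟩ := mem_filter.mp hp
      refine ⟨(h p h1).1, not_le.mp h2, (h p h1).2.2.trans (le_of_eq (by ring))⟩)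
    have h1 : ∑ p ∈ T.filter (fun p : ℕ => (p : ℝ) ≤ 2 * x), Real.log p / (p : ℝ) ^ 2
        ≤ 3 / x := by
      calc _ ≤ ∑ p ∈ T.filter (fun p : ℕ => (p : ℝ) ≤ 2 * x), Real.log p / x ^ 2 := by
            apply sum_le_sum
            intro p hp
            have := (h p (mem_filter.mp hp).1).2.1
            have := Real.log_natCast_nonneg p
            gcongr
        _ = (∑ p ∈ T.filter (fun p : ℕ => (p : ℝ) ≤ 2 * x), Real.log p) / x ^ 2 := by
            rw [sum_div]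
        _ ≤ Chebyshev.theta (2 * x) / x ^ 2 := by
            gcongr
            rw [Chebyshev.theta_eq_sum_primesLE]
            apply sum_le_sum_of_subset_of_nonneg
            · intro p hp
              obtain ⟨h1, h2⟩ := mem_filter.mp hp
              exact Nat.mem_primesLE.mpr ⟨Nat.le_floor h2, (h p h1).1⟩
            · intro p _ _; exact Real.log_natCast_nonneg p
        _ ≤ Real.log 4 * (2 * x) / x ^ 2 := by
            gcongr
            exact Chebyshev.theta_le_log4_mul_x (by positivity)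
        _ = 2 * Real.log 4 / x := by field_simp
        _ ≤ 3 / x := by
            gcongr
            rw [show (4 : ℝ) = 2 ^ 2 by norm_num, Real.log_pow]
            push_cast
            linarith [Real.log_two_lt_d9]
    have e : 6 / (2 * x) = 3 / x := by field_simp; norm_num
    have e2 : 6 / x = 3 / x + 3 / x := by ring
    linarith

theorem prime_tail {x : ℝ} (hx : 1 < x) (T : Finset ℕ) (h : ∀ p ∈ T, p.Prime ∧ x < p) :
    ∑ p ∈ T, 1 / (p : ℝ) ^ 2 ≤ 6 / x / Real.log x := by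
  have hl := Real.log_pos hx
  rw [le_div_iff₀ hl, sum_mul]
  refine le_trans (sum_le_sum fun p hp => ?_) (dyadic (T.sup id) x T (by linarith) ?_)
  · have h1 : Real.log x ≤ Real.log p := Real.log_le_log (by linarith) (h p hp).2.le
    rw [one_div_mul_eq_div]
    gcongr
  · intro p hp
    refine ⟨(h p hp).1, (h p hp).2, ?_⟩
    have h1 : p ≤ T.sup id := le_sup (f := id) hp
    have h2 : p ≤ 2 ^ T.sup id := h1.trans Nat.lt_two_pow_self.le
    have h3 : (p : ℝ) ≤ 2 ^ T.sup id := by exact_mod_cast h2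
    exact h3.trans (le_mul_of_one_le_right (by positivity) hx.le)

variable {ι : Type} [Fintype ι] [DecidableEq ι] {q : ι → ℕ} [∀ i, NeZero (q i)]

theorem dens_bound (hp : ∀ i, (q i).Prime) (hinj : Injective q) {j0 s : ℕ} (hj0 : 2 ≤ j0)
    (hpi : (Nat.primeCounting ⌊4 * √((s + j0 : ℕ) : ℝ)⌋₊ : ℝ)
      ≤ 3 * (4 * √((s + j0 : ℕ) : ℝ)) / Real.log (4 * √((s + j0 : ℕ) : ℝ))) :
    Real.exp (-(72 * (√((s + j0 : ℕ) : ℝ) / Real.log ((s + j0 : ℕ) : ℝ)))) ≤ ∏ i, lo q j0 s i := by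
  set J : ℝ := ((s + j0 : ℕ) : ℝ) with hJ
  have hJ2 : 2 ≤ J := by rw [hJ]; exact_mod_cast (by omega)
  have hs1 : 1 ≤ √J := Real.one_le_sqrt.mpr (by linarith)
  have hsq : √J ^ 2 = J := Real.sq_sqrt (by linarith)
  have hlJ : 0 < Real.log J := Real.log_pos (by linarith)
  have hlP : Real.log J / 2 ≤ Real.log (4 * √J) := by
    rw [← Real.log_sqrt (by linarith)]
    exact Real.log_le_log (by linarith) (by linarith)
  have hiff : ∀ i, q i ^ 2 ≤ 16 * (s + j0) ↔ (q i : ℝ) ≤ 4 * √J := by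
    intro i
    rw [← pow_le_pow_iff_left₀ (Nat.cast_nonneg (α := ℝ) (q i)) (by positivity)
      two_ne_zero, ← Nat.cast_le (α := ℝ), mul_pow, hsq, hJ]
    push_cast
    norm_num
  let u : ι → ℝ := fun i => if q i ^ 2 ≤ 16 * (s + j0) then 2 else 4 * J * (1 / (q i : ℝ) ^ 2)
  have h1 : ∀ i, Real.exp (-u i) ≤ lo q j0 s i := by
    intro i
    simp only [u, lo]
    split_ifs with h
    · rw [Real.exp_neg, one_div]
      apply inv_anti₀ (by norm_num)
      have := Real.add_one_le_exp (1 : ℝ)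
      rw [show (2 : ℝ) = 1 + 1 by norm_num, Real.exp_add]
      nlinarith
    · have hq := one_le_q (q := q) i
      set z : ℝ := 2 * J * (1 / (q i : ℝ) ^ 2) with hz
      have hz0 : 0 ≤ z := by positivity
      have h16 : 16 * J ≤ (q i : ℝ) ^ 2 := by
        rw [hJ]; exact_mod_cast (not_le.mp h).le
      have hz1 : z ≤ 1 / 2 := by
        rw [hz, mul_one_div, div_le_iff₀ (by positivity)]; linarith
      have hz2 : (2 * s + 1 : ℝ) / (q i : ℝ) ^ 2 ≤ z := by
        rw [hz, mul_one_div]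
        gcongr
        have : 2 * s + 1 ≤ 2 * (s + j0) := by omega
        rw [hJ]; exact_mod_cast this
      rw [show 4 * J * (1 / (q i : ℝ) ^ 2) = 2 * z by rw [hz]; ring, Real.exp_neg]
      have h3 := Real.add_one_le_exp (2 * z)
      have h4 : (Real.exp (2 * z))⁻¹ ≤ 1 - z := by
        rw [inv_le_iff_one_le_mul₀ (Real.exp_pos _)]
        have : (1 - z) * (2 * z + 1) ≤ (1 - z) * Real.exp (2 * z) :=
          mul_le_mul_of_nonneg_left h3 (by linarith)
        nlinarith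
      linarith
  refine le_trans ?_ (prod_le_prod (fun i _ => (Real.exp_pos _).le) fun i _ => h1 i)
  rw [← Real.exp_sum, sum_neg_distrib, Real.exp_le_exp, neg_le_neg_iff]
  simp only [u]
  rw [sum_ite, sum_const, nsmul_eq_mul, ← mul_sum]
  have h2 : (#(univ.filter fun i => q i ^ 2 ≤ 16 * (s + j0)) : ℝ) ≤ 24 * (√J / Real.log J) := by
    have a1 : #(univ.filter fun i => q i ^ 2 ≤ 16 * (s + j0)) ≤ Nat.primeCounting ⌊4 * √J⌋₊ := by
      rw [← Nat.primesLE_card_eq_primeCounting]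
      apply card_le_card_of_injOn q _ hinj.injOn
      intro i hi
      exact mem_coe.mpr (Nat.mem_primesLE.mpr
        ⟨Nat.le_floor ((hiff i).mp (mem_filter.mp (mem_coe.mp hi)).2), hp i⟩)
    calc _ ≤ (Nat.primeCounting ⌊4 * √J⌋₊ : ℝ) := by exact_mod_cast a1
      _ ≤ 3 * (4 * √J) / Real.log (4 * √J) := hpi
      _ ≤ 3 * (4 * √J) / (Real.log J / 2) := by gcongr
      _ = _ := by field_simp; norm_num
  have h3 : ∑ i ∈ univ.filter (fun i => ¬ q i ^ 2 ≤ 16 * (s + j0)), 1 / (q i : ℝ) ^ 2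
      ≤ 6 / (4 * √J) / (Real.log J / 2) := by
    rw [← sum_image (f := fun p : ℕ => 1 / (p : ℝ) ^ 2) hinj.injOn]
    refine (prime_tail (x := 4 * √J) (by linarith) _ ?_).trans (by gcongr)
    intro p hp'
    obtain ⟨i, hi, rfl⟩ := mem_image.mp hp'
    exact ⟨hp i, not_le.mp fun h => (mem_filter.mp hi).2 ((hiff i).mpr h)⟩
  have h4 : 4 * J * (6 / (4 * √J) / (Real.log J / 2)) = 12 * (√J / Real.log J) := by
    nth_rewrite 1 [← hsq]
    field_simp
    norm_num
  have h5 : 4 * J * ∑ i ∈ univ.filter (fun i => ¬ q i ^ 2 ≤ 16 * (s + j0)), 1 / (q i : ℝ) ^ 2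
      ≤ 4 * J * (6 / (4 * √J) / (Real.log J / 2)) := by gcongr
  have h6 : 0 ≤ √J / Real.log J := by positivity
  linarith

def C1 : ℝ := ∑' n : ℕ, (n : ℝ) ^ (-(9 / 8) : ℝ)

def C2 : ℝ := ∑' n : ℕ, (n : ℝ) ^ (-(17 / 16) : ℝ)

theorem C1_nonneg : 0 ≤ C1 := tsum_nonneg fun _ => by positivity

theorem C2_nonneg : 0 ≤ C2 := tsum_nonneg fun _ => by positivity

theorem sum_le_C1 (hinj : Injective q) (T : Finset ι) :
    ∑ i ∈ T, (q i : ℝ) ^ (-(9 / 8) : ℝ) ≤ C1 := by
  rw [← sum_image (f := fun p : ℕ => (p : ℝ) ^ (-(9 / 8) : ℝ)) hinj.injOn]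
  exact (Real.summable_nat_rpow.mpr (by norm_num)).sum_le_tsum _ fun _ _ => by positivity

theorem gam_eq (i : ι) : gam q i = (q i : ℝ) ^ (1 / 4 : ℝ) := by
  unfold gam
  rw [Real.sqrt_eq_rpow, Real.sqrt_eq_rpow, ← Real.rpow_mul (Nat.cast_nonneg _)]
  norm_num

theorem cc_tail (hinj : Injective q) {x : ℝ} (hx : 0 < x) (T : Finset ι)
    (h : ∀ i ∈ T, x ≤ q i) : ∑ i ∈ T, cc q i ≤ 8 * C1 * x ^ (-(5 / 8) : ℝ) := by
  have key : ∀ i ∈ T, cc q i ≤ 8 * x ^ (-(5 / 8) : ℝ) * (q i : ℝ) ^ (-(9 / 8) : ℝ) := by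
    intro i hi
    have hq : (0 : ℝ) < q i := by linarith [one_le_q (q := q) i]
    have e : cc q i = 8 * (q i : ℝ) ^ (-(5 / 8) : ℝ) * (q i : ℝ) ^ (-(9 / 8) : ℝ) := by
      unfold cc
      rw [gam_eq, mul_div_assoc, ← Real.rpow_natCast, ← Real.rpow_sub hq, mul_assoc,
        ← Real.rpow_add hq]
      norm_num
    rw [e]
    have := Real.rpow_le_rpow_of_nonpos hx (h i hi) (by norm_num : (-(5 / 8) : ℝ) ≤ 0)
    gcongr
  refine (sum_le_sum key).trans ?_
  rw [← mul_sum]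
  calc _ ≤ 8 * x ^ (-(5 / 8) : ℝ) * C1 := by gcongr; exact sum_le_C1 hinj T
    _ = _ := by ring

theorem gam_sq_sum (hinj : Injective q) : ∑ i, gam q i ^ 2 / (q i : ℝ) ^ 2 ≤ C1 := by
  refine le_trans (sum_le_sum fun i _ => ?_) (sum_le_C1 hinj univ)
  have hq := one_le_q (q := q) i
  rw [gam_eq, ← Real.rpow_natCast, ← Real.rpow_natCast, ← Real.rpow_mul (by linarith),
    ← Real.rpow_sub (by linarith)]
  apply Real.rpow_le_rpow_of_exponent_le hq
  norm_num

theorem inv_sq_sum (hp : ∀ i, (q i).Prime) (hinj : Injective q) :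
    ∑ i, 1 / (q i : ℝ) ^ 2 ≤ 1 := by
  simp only [one_div]
  rw [← sum_image (f := fun p : ℕ => ((p : ℝ) ^ 2)⁻¹) hinj.injOn]
  have h := sum_Ioo_inv_sq_le (α := ℝ) 1 (univ.sup q + 1)
  refine le_trans (sum_le_sum_of_subset_of_nonneg ?_ fun i _ _ => by positivity)
    (h.trans (by norm_num))
  intro m hm
  obtain ⟨i, _, rfl⟩ := mem_image.mp hm
  exact mem_Ioo.mpr ⟨(hp i).one_lt, Nat.lt_succ_of_le (le_sup (mem_univ i))⟩

theorem eta_sum (j j0 : ℕ) (hj0 : 1 ≤ j0) :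
    ∑ k ∈ range j, ((k + j0 : ℕ) : ℝ) ^ (-(5 / 8) : ℝ)
      ≤ C2 * ((j + j0 : ℕ) : ℝ) ^ (7 / 16 : ℝ) := by
  have key : ∀ k ∈ range j, ((k + j0 : ℕ) : ℝ) ^ (-(5 / 8) : ℝ)
      ≤ ((k + j0 : ℕ) : ℝ) ^ (-(17 / 16) : ℝ) * ((j + j0 : ℕ) : ℝ) ^ (7 / 16 : ℝ) := by
    intro k hk
    have hk := mem_range.mp hk
    have h0 : (0 : ℝ) < ((k + j0 : ℕ) : ℝ) := by exact_mod_cast (by omega)
    have h1 : ((k + j0 : ℕ) : ℝ) ≤ ((j + j0 : ℕ) : ℝ) := by exact_mod_cast (by omega)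
    rw [show (-(5 / 8) : ℝ) = -(17 / 16) + 7 / 16 by norm_num, Real.rpow_add h0]
    gcongr
  refine (sum_le_sum key).trans ?_
  rw [← sum_mul]
  gcongr
  rw [← sum_image (f := fun p : ℕ => (p : ℝ) ^ (-(17 / 16) : ℝ)) (g := fun k => k + j0)
    (fun a _ b _ h => by simpa using h)]
  exact (Real.summable_nat_rpow.mpr (by norm_num)).sum_le_tsum _ fun _ _ => by positivity

end

end Pool.Agent.P.MP_6da505_nt
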