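import Mathlib
import Pool.Agent.P.MP_6da505_nt.Sums

/-! Choice of the parameters, compactness, and the final theorem. -/

namespace Pool.Agent.P.MP_6da505_nt

open Finset Function Filter

noncomputable section

def AA : ℝ := 8 * C1 + 1

def DD : ℝ := 32 * Cs * (8 * C1) + (Ca + 2) * AA ^ 2 * C2 + 110

structure Big (x : ℝ) : Prop where
  h8 : 8 ≤ x
  e1 : AA * x ^ (-(5 / 16) : ℝ) ≤ 1 / 4
  e2 : DD * x ^ (7 / 16 : ℝ) ≤ √x / Real.log x
  e3 : 6 * Real.exp (13 * (8 * C1)) ≤ 4 * x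
  e4 : (Nat.primeCounting ⌊4 * √x⌋₊ : ℝ) ≤ 3 * (4 * √x) / Real.log (4 * √x)

theorem AA_ge : 1 ≤ AA := by unfold AA; linarith [C1_nonneg]

theorem DD_ge : 110 ≤ DD := by
  unfold DD
  have := C1_nonneg
  have := C2_nonneg
  have := Cs_pos
  have := Ca_pos
  have h1 : 0 ≤ 32 * Cs * (8 * C1) := by positivity
  have h2 : 0 ≤ (Ca + 2) * AA ^ 2 * C2 := by positivity
  linarith

theorem eventually_big : ∀ᶠ x in atTop, Big x := by
  have hD := DD_ge
  have a1 : ∀ᶠ x : ℝ in atTop, AA * x ^ (-(5 / 16) : ℝ) ≤ 1 / 4 := by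
    have := (tendsto_rpow_neg_atTop (by norm_num : (0 : ℝ) < 5 / 16)).const_mul AA
    rw [mul_zero] at this
    exact this.eventually_le_const (by norm_num)
  have a2 := (isLittleO_log_rpow_atTop (by norm_num : (0 : ℝ) < 1 / 16)).bound
    (by positivity : 0 < 1 / DD)
  have a4 : ∀ᶠ x : ℝ in atTop,
      (Nat.primeCounting ⌊4 * √x⌋₊ : ℝ) ≤ (Real.log 4 + 1) * (4 * √x) / Real.log (4 * √x) :=
    (Real.tendsto_sqrt_atTop.const_mul_atTop (by norm_num : (0 : ℝ) < 4)).eventually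
      (Chebyshev.eventually_primeCounting_le one_pos)
  filter_upwards [eventually_ge_atTop 8, a1, a2, a4,
    eventually_ge_atTop (6 * Real.exp (13 * (8 * C1)) / 4)] with x h8 h1 h2 h4 h3
  have hl : 0 < Real.log x := Real.log_pos (by linarith)
  refine ⟨h8, h1, ?_, by linarith, h4.trans ?_⟩
  · rw [Real.norm_eq_abs, Real.norm_eq_abs, abs_of_pos hl, abs_of_nonneg (by positivity)] at h2
    rw [le_div_iff₀ hl, Real.sqrt_eq_rpow]
    calc DD * x ^ (7 / 16 : ℝ) * Real.log x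
        ≤ DD * x ^ (7 / 16 : ℝ) * (1 / DD * x ^ (1 / 16 : ℝ)) := by gcongr
      _ = x ^ (7 / 16 : ℝ) * x ^ (1 / 16 : ℝ) := by field_simp
      _ = _ := by rw [← Real.rpow_add (by linarith)]; norm_num
  · have hs1 : 1 ≤ √x := Real.one_le_sqrt.mpr (by linarith)
    have : 0 < Real.log (4 * √x) := Real.log_pos (by linarith)
    have h5 : Real.log 4 + 1 ≤ 3 := by
      rw [show (4 : ℝ) = 2 ^ 2 by norm_num, Real.log_pow]
      push_cast
      linarith [Real.log_two_lt_d9]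
    gcongr

def LL (j0 j : ℕ) : ℝ := 72 * (√((j + j0 : ℕ) : ℝ) / Real.log ((j + j0 : ℕ) : ℝ))

def eta (j0 j : ℕ) : ℝ := AA * ((j + j0 : ℕ) : ℝ) ^ (-(5 / 16) : ℝ)

theorem LL_mono {j0 : ℕ} (h : 8 ≤ j0) : Monotone (LL j0) := by
  intro a b hab
  unfold LL
  have h8 : Real.exp 2 ≤ 8 := by
    rw [show (2 : ℝ) = 1 + 1 by norm_num, Real.exp_add]
    nlinarith [Real.exp_one_lt_d9, Real.exp_pos 1]
  have ha : (8 : ℝ) ≤ ((a + j0 : ℕ) : ℝ) := by exact_mod_cast (by omega)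
  have hb : ((a + j0 : ℕ) : ℝ) ≤ ((b + j0 : ℕ) : ℝ) := by exact_mod_cast (by omega)
  have := Real.log_div_sqrt_antitoneOn (Set.mem_Ici.mpr (h8.trans ha))
    (Set.mem_Ici.mpr (h8.trans (ha.trans hb))) hb
  have hl : 0 < Real.log ((b + j0 : ℕ) : ℝ) := Real.log_pos (by linarith)
  have hs : 0 < √((b + j0 : ℕ) : ℝ) := Real.sqrt_pos.mpr (by linarith)
  rw [← inv_div (Real.log _), ← inv_div (Real.log ((b + j0 : ℕ) : ℝ))]
  gcongr

theorem Big.facts {x : ℝ} (h : Big x) {L : ℝ} (hL : L = 72 * (√x / Real.log x)) :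
    DD * x ^ (7 / 16 : ℝ) ≤ L ∧ 1 ≤ L ∧ (16 * x) ^ 3 ≤ Real.exp L := by
  have h8 := h.h8
  have hD := DD_ge
  have h1 : 1 ≤ x ^ (7 / 16 : ℝ) := Real.one_le_rpow (by linarith) (by norm_num)
  have h2 : 110 * x ^ (7 / 16 : ℝ) ≤ DD * x ^ (7 / 16 : ℝ) := by gcongr
  have h3 : DD * x ^ (7 / 16 : ℝ) ≤ L := by linarith [h.e2]
  refine ⟨h3, by linarith, ?_⟩
  rw [← Real.log_le_iff_le_exp (by positivity), Real.log_pow]
  have h4 := Real.log_le_rpow_div (by linarith : 0 ≤ 16 * x) (by norm_num : (0 : ℝ) < 7 / 16)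
  rw [Real.mul_rpow (by norm_num) (by linarith)] at h4
  have h5 : (16 : ℝ) ^ (7 / 16 : ℝ) ≤ 16 := by
    conv_rhs => rw [← Real.rpow_one 16]
    exact Real.rpow_le_rpow_of_exponent_le (by norm_num) (by norm_num)
  have h6 : (16 : ℝ) ^ (7 / 16 : ℝ) * x ^ (7 / 16 : ℝ) ≤ 16 * x ^ (7 / 16 : ℝ) := by gcongr
  push_cast
  linarith

instance primesNeZero (M : ℕ) (i : Nat.primesLE M) : NeZero (i : ℕ) :=
  ⟨(Nat.mem_primesLE.mp i.2).2.ne_zero⟩

theorem par {j0 : ℕ} (hj0 : ∀ J : ℕ, j0 ≤ J → Big J) (n : ℕ) :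
    Par (fun i : Nat.primesLE ⌈Real.exp (4 * LL j0 n)⌉₊ => (i : ℕ)) n j0 (LL j0) (eta j0)
      (8 * C1) := by
  have h8 : 8 ≤ j0 := by exact_mod_cast (hj0 j0 le_rfl).h8
  have hB : ∀ j, Big ((j + j0 : ℕ) : ℝ) := fun j => hj0 _ (by omega)
  have hF : ∀ j, DD * ((j + j0 : ℕ) : ℝ) ^ (7 / 16 : ℝ) ≤ LL j0 j ∧ 1 ≤ LL j0 j ∧
      (16 * ((j + j0 : ℕ) : ℝ)) ^ 3 ≤ Real.exp (LL j0 j) := fun j => (hB j).facts rfl
  have hp : ∀ i : Nat.primesLE ⌈Real.exp (4 * LL j0 n)⌉₊, (i : ℕ).Prime :=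
    fun i => (Nat.mem_primesLE.mp i.2).2
  have hinj : Injective fun i : Nat.primesLE ⌈Real.exp (4 * LL j0 n)⌉₊ => (i : ℕ) :=
    Subtype.val_injective
  have hC1 := C1_nonneg
  have hA := AA_ge
  have h7 : ∀ j, 16 * ((j + j0 : ℕ) : ℝ) ≤ Real.exp (LL j0 j) := by
    intro j
    refine le_trans ?_ (hF j).2.2
    exact le_self_pow₀ (by linarith [(hB j).h8]) (by norm_num)
  have h7' : ∀ j, Real.exp (-LL j0 j) ≤ 1 / (16 * ((j + j0 : ℕ) : ℝ)) := by
    intro j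
    rw [Real.exp_neg, one_div]
    exact inv_anti₀ (by linarith [(hB j).h8]) (h7 j)
  have hlow : ∀ j, ∀ r : ℝ, r ≤ 1 → 1 / ((j + j0 : ℕ) : ℝ) ≤ ((j + j0 : ℕ) : ℝ) ^ (-r) := by
    intro j r hr
    rw [one_div, ← Real.rpow_neg_one]
    exact Real.rpow_le_rpow_of_exponent_le (by linarith [(hB j).h8]) (by linarith)
  have hη : ∀ j, 1 / ((j + j0 : ℕ) : ℝ) ≤ eta j0 j := by
    intro j
    refine (hlow j (5 / 16) (by norm_num)).trans ?_
    unfold eta
    exact le_mul_of_one_le_left (by positivity) hA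
  have hsq : ∀ j, eta j0 j ^ 2 = AA ^ 2 * ((j + j0 : ℕ) : ℝ) ^ (-(5 / 8) : ℝ) := by
    intro j
    unfold eta
    rw [mul_pow, ← Real.rpow_natCast (_ ^ _), ← Real.rpow_mul (Nat.cast_nonneg _)]
    norm_num
  refine ⟨hp, hinj, ?_, inv_sq_sum hp hinj, by omega, LL_mono h8, fun j => (hF j).2.1, ?_, ?_, ?_,
    ?_, ?_, ?_, ?_, ?_, ?_, ?_, ?_, ?_, fun j _ => h7 j⟩
  · intro j hj p hp' hle
    refine ⟨⟨p, Nat.mem_primesLE.mpr ⟨?_, hp'⟩⟩, rfl⟩
    have h1 : Real.exp (4 * LL j0 j) ≤ Real.exp (4 * LL j0 n) :=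
      Real.exp_le_exp.mpr (by linarith [LL_mono h8 hj.le])
    exact_mod_cast (hle.trans h1).trans (Nat.le_ceil _)
  · intro s _
    exact dens_bound hp hinj (by omega) (hB s).e4
  · have := cc_tail hinj one_pos univ (fun i _ => one_le_q
      (q := fun i : Nat.primesLE ⌈Real.exp (4 * LL j0 n)⌉₊ => (i : ℕ)) i)
    simpa using this
  · linarith [gam_sq_sum hinj]
  · intro s _
    have h1 := (hB s).e3
    have h2 := (hB s).h8
    set J : ℝ := ((s + j0 : ℕ) : ℝ)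
    calc _ ≤ ((4 * J) ^ 20 + (4 * J) ^ 20) * J ^ 2 := by gcongr
      _ = 2 * 4 ^ 20 * J ^ 22 := by ring
      _ ≤ 16 ^ 30 * J ^ 30 := by
          gcongr
          · norm_num
          · linarith
          · norm_num
      _ = ((16 * J) ^ 3) ^ 10 := by ring
      _ ≤ Real.exp (LL j0 s) ^ 10 := by gcongr; exact (hF s).2.2
      _ = _ := by rw [← Real.exp_nat_mul]; norm_num
  · intro j _
    simp only [hsq]
    rw [← mul_sum, ← mul_sum]
    have h1 := eta_sum j j0 (by omega)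
    have h2 : 1 ≤ ((j + j0 : ℕ) : ℝ) ^ (7 / 16 : ℝ) :=
      Real.one_le_rpow (by linarith [(hB j).h8]) (by norm_num)
    have hCs := Cs_pos
    have hCa := Ca_pos
    have h3 : (Ca + 2) * (AA ^ 2 * ∑ k ∈ range j, ((k + j0 : ℕ) : ℝ) ^ (-(5 / 8) : ℝ))
        ≤ (Ca + 2) * (AA ^ 2 * (C2 * ((j + j0 : ℕ) : ℝ) ^ (7 / 16 : ℝ))) := by gcongr
    have h4 : 32 * Cs * (8 * C1) ≤ 32 * Cs * (8 * C1) * ((j + j0 : ℕ) : ℝ) ^ (7 / 16 : ℝ) :=
      le_mul_of_one_le_right (by positivity) h2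
    have h5 := (hF j).1
    have h6 := (hF j).2.1
    unfold DD at h5
    nlinarith
  · intro j _
    refine lt_of_lt_of_le ?_ (hη j)
    have := (hB j).h8
    positivity
  · intro j _; exact (hB j).e1
  · intro j _
    have h2 := (hB j).h8
    have := cc_tail hinj (x := √((j + j0 : ℕ) : ℝ)) (Real.sqrt_pos.mpr (by linarith))
      (CJ (fun i : Nat.primesLE ⌈Real.exp (4 * LL j0 n)⌉₊ => (i : ℕ)) (j + j0))ᶜ (by
        intro i hi
        have h1 : ¬ (i : ℕ) ^ 2 ≤ 16 * (j + j0) := by simpa [CJ] using hi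
        rw [Real.sqrt_le_left (Nat.cast_nonneg _)]
        exact_mod_cast (by omega))
    refine this.trans ?_
    rw [Real.sqrt_eq_rpow, ← Real.rpow_mul (by linarith)]
    unfold eta AA
    rw [show (1 / 2 * -(5 / 8) : ℝ) = -(5 / 16) by norm_num]
    gcongr
    linarith
  · intro j _
    have h2 := (hB j).h8
    have := cc_tail hinj (x := Real.exp (4 * LL j0 j)) (Real.exp_pos _)
      (univ.filter fun i : Nat.primesLE ⌈Real.exp (4 * LL j0 n)⌉₊ =>
        ¬ ((i : ℕ) : ℝ) ≤ Real.exp (4 * LL j0 j)) (fun i hi => (not_le.mp (mem_filter.mp hi).2).le)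
    refine this.trans ?_
    rw [hsq, ← Real.exp_mul]
    have h3 : Real.exp (4 * LL j0 j * -(5 / 8)) ≤ ((j + j0 : ℕ) : ℝ) ^ (-(5 / 8) : ℝ) := by
      refine le_trans (Real.exp_le_exp.mpr ?_) ((h7' j).trans (le_trans ?_
        (hlow j (5 / 8) (by norm_num))))
      · linarith [(hF j).2.1]
      · gcongr; linarith
    have h4 : 8 * C1 ≤ AA ^ 2 := by unfold AA; nlinarith
    gcongr
  · intro j _
    have h2 := (hB j).h8
    refine le_trans ?_ (hη j)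
    calc 3 * Real.exp (-LL j0 j) ≤ 3 * (1 / (16 * ((j + j0 : ℕ) : ℝ))) := by gcongr; exact h7' j
      _ ≤ 16 * (1 / (16 * ((j + j0 : ℕ) : ℝ))) := by gcongr; norm_num
      _ = _ := by field_simp
  · intro j _
    have h2 := (hB j).h8
    have h3 : (j + 1 : ℝ) ≤ ((j + j0 : ℕ) : ℝ) := by exact_mod_cast (by omega)
    have h4 : Real.exp (-3 * LL j0 j) = Real.exp (-LL j0 j) ^ 3 := by
      rw [← Real.exp_nat_mul]; congr 1; push_cast; ring
    have h5 := h7' j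
    have h6 := hη j
    rw [h4]
    set J : ℝ := ((j + j0 : ℕ) : ℝ)
    calc 10 * (j + 1) * Real.exp (-LL j0 j) ^ 3 ≤ 10 * J * (1 / (16 * J)) ^ 3 := by gcongr
      _ = 10 / 16 ^ 3 * (1 / J) ^ 2 := by field_simp
      _ ≤ 1 * (1 / J) ^ 2 := by gcongr; norm_num
      _ ≤ _ := by rw [one_mul]; gcongr
  · intro j _
    have h2 := (hB j).h8
    rw [← div_le_iff₀ (by linarith)]
    exact hη j

theorem infinite_seq (N : ℕ → ℕ)
    (h : ∀ n, ∃ a : ℕ → ℕ, (∀ k < n, a k < N k) ∧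
      (∀ k < n, ∀ l < n, Squarefree (a k + a l)) ∧ ∀ k < n, ∀ l < n, a k = a l → k = l) :
    ∃ a : ℕ → ℕ, (∀ k, a k < N k) ∧ (∀ k l, Squarefree (a k + a l)) ∧ Injective a := by
  choose f f1 f2 f3 using h
  let F : Ultrafilter ℕ := hyperfilter ℕ
  have hF : ∀ k, ∀ᶠ n in (F : Filter ℕ), k < n := fun k =>
    Nat.hyperfilter_le_atTop (eventually_gt_atTop k)
  have key : ∀ k, ∃ v < N k, ∀ᶠ n in (F : Filter ℕ), f n k = v := by
    intro k
    have h1 : (⋃ v ∈ Set.Iio (N k), {n | f n k = v}) ∈ F := by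
      apply mem_of_superset (hF k)
      intro n hn
      simp only [Set.mem_iUnion]
      exact ⟨f n k, f1 n k hn, rfl⟩
    obtain ⟨v, hv, h2⟩ := (Ultrafilter.finite_biUnion_mem_iff (Set.finite_Iio _)).mp h1
    exact ⟨v, hv, h2⟩
  choose a a1 a2 using key
  refine ⟨a, a1, fun k l => ?_, fun k l hkl => ?_⟩
  · obtain ⟨n, h1, h2, h3, h4⟩ := ((hF k).and ((hF l).and ((a2 k).and (a2 l)))).exists
    rw [← h3, ← h4]
    exact f2 n k h1 l h2
  · obtain ⟨n, h1, h2, h3, h4⟩ := ((hF k).and ((hF l).and ((a2 k).and (a2 l)))).exists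
    exact f3 n k h1 l h2 (by rw [h3, h4, hkl])

theorem main : ∃ C : ℝ, 0 < C ∧ ∃ a : ℕ → ℕ, StrictMono a ∧ (∀ n, 0 < a n) ∧
    (∀ m n, Squarefree (a m + a n)) ∧
    ∀ n, 2 ≤ n → (a n : ℝ) ≤ Real.exp (C * √(n : ℝ) / Real.log n) := by
  classical
  obtain ⟨j0, hj0⟩ := eventually_atTop.mp (tendsto_natCast_atTop_atTop.eventually eventually_big)
  have h8 : 8 ≤ j0 := by exact_mod_cast (hj0 j0 le_rfl).h8
  obtain ⟨b, b1, b2, b3⟩ := infinite_seq (fun k => ⌈Real.exp (176 * LL j0 k)⌉₊)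
    fun n => finite_seq (par hj0 n)
  let p : ℕ → Prop := fun m => m ∈ Set.range b
  have hinf : (Set.ofPred p).Infinite := Set.infinite_range_of_injective b3
  have hmem : ∀ n, ∃ k, b k = Nat.nth p n := fun n => Nat.nth_mem_of_infinite hinf n
  have hsq : ∀ m n, Squarefree (Nat.nth p m + Nat.nth p n) := by
    intro m n
    obtain ⟨k, hk⟩ := hmem m
    obtain ⟨l, hl⟩ := hmem n
    rw [← hk, ← hl]; exact b2 k l
  have hj : (0 : ℝ) < j0 := by exact_mod_cast (by omega)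
  refine ⟨176 * 72 * √(j0 : ℝ), by positivity, Nat.nth p, Nat.nth_strictMono hinf, ?_, hsq, ?_⟩
  · intro n
    have := (hsq n n).ne_zero
    omega
  · intro n hn
    have h1 : Nat.nth p n < ⌈Real.exp (176 * LL j0 n)⌉₊ := by
      apply Nat.nth_lt_of_lt_count
      rw [Nat.count_eq_card_filter_range]
      have : #((range (n + 1)).image b) = n + 1 := by
        rw [card_image_of_injective _ b3, card_range]
      rw [Nat.lt_iff_add_one_le, ← this]
      apply card_le_card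
      intro m hm
      obtain ⟨k, hk, rfl⟩ := mem_image.mp hm
      refine mem_filter.mpr ⟨mem_range.mpr ((b1 k).trans_le (Nat.ceil_mono ?_)), ⟨k, rfl⟩⟩
      have := LL_mono h8 (Nat.lt_succ_iff.mp (mem_range.mp hk))
      exact Real.exp_le_exp.mpr (by linarith)
    refine (Nat.lt_ceil.mp h1).le.trans (Real.exp_le_exp.mpr ?_)
    unfold LL
    have hn2 : (2 : ℝ) ≤ n := by exact_mod_cast hn
    have hl : 0 < Real.log n := Real.log_pos (by linarith)
    have h2 : ((n + j0 : ℕ) : ℝ) ≤ j0 * n := by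
      have : n + j0 ≤ j0 * n := by nlinarith
      exact_mod_cast this
    have h3 : (n : ℝ) ≤ ((n + j0 : ℕ) : ℝ) := by exact_mod_cast (by omega)
    calc 176 * (72 * (√((n + j0 : ℕ) : ℝ) / Real.log ((n + j0 : ℕ) : ℝ)))
        ≤ 176 * (72 * (√((j0 : ℝ) * n) / Real.log n)) := by gcongr
      _ = _ := by rw [Real.sqrt_mul hj.le]; ring

end

end Pool.Agent.P.MP_6da505_nt
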